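import Pool.Agent.R591.BR.Defs

/-!
# Closure properties of the Borel classes
-/

set_option autoImplicit false

namespace Pool.Agent.R591.BR

open Set Topology TopologicalSpace
open scoped Ordinal

variable {X Y : Type} [TopologicalSpace X] [TopologicalSpace Y]

theorem Sig.one_le {ξ : Ordinal.{0}} {A : Set X} (h : Sig ξ A) : 1 ≤ ξ := by
  cases h with
  | opn => exact le_rfl
  | iUnion _ η B h1 h2 _ => exact (h1 0).trans (h2 0).le

theorem Sig.isOpen {A : Set X} (h : Sig 1 A) : IsOpen A := by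
  generalize hξ : (1 : Ordinal.{0}) = ξ at h
  cases h with
  | opn _ hU => exact hU
  | iUnion _ η B h1 h2 _ =>
    subst hξ
    exact absurd (h2 0) (not_lt.2 (h1 0))

theorem Sig.repr {ξ : Ordinal.{0}} {A : Set X} (h : Sig ξ A) (hξ : 1 < ξ) :
    ∃ (η : ℕ → Ordinal.{0}) (B : ℕ → Set X), (∀ n, 1 ≤ η n) ∧ (∀ n, η n < ξ) ∧
      (∀ n, Sig (η n) (B n)ᶜ) ∧ A = ⋃ n, B n := by
  cases h with
  | opn => exact absurd hξ (lt_irrefl _)
  | iUnion _ η B h1 h2 h3 => exact ⟨η, B, h1, h2, h3, rfl⟩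

theorem sig_of_isOpen [MetrizableSpace X] {ξ : Ordinal.{0}} {A : Set X} (h : IsOpen A)
    (hξ : 1 ≤ ξ) : Sig ξ A := by
  rcases hξ.eq_or_lt with rfl | hξ
  · exact Sig.opn A h
  · letI := TopologicalSpace.metrizableSpaceMetric X
    obtain ⟨F, hF, -, hU, -⟩ := h.exists_iUnion_isClosed
    rw [← hU]
    exact Sig.iUnion ξ (fun _ => 1) F (fun _ => le_rfl) (fun _ => hξ)
      (fun n => Sig.opn _ (hF n).isOpen_compl)

theorem Sig.mono [MetrizableSpace X] {ξ ζ : Ordinal.{0}} {A : Set X} (h : Sig ξ A)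
    (hξ : ξ ≤ ζ) : Sig ζ A := by
  cases h with
  | opn _ hU => exact sig_of_isOpen hU hξ
  | iUnion _ η B h1 h2 h3 => exact Sig.iUnion ζ η B h1 (fun n => (h2 n).trans_le hξ) h3

theorem Pi0.mono [MetrizableSpace X] {ξ ζ : Ordinal.{0}} {A : Set X} (h : Pi0 ξ A)
    (hξ : ξ ≤ ζ) : Pi0 ζ A := Sig.mono h hξ

theorem Pi0.sig {ξ ζ : Ordinal.{0}} {A : Set X} (h : Pi0 ξ A) (hξ : ξ < ζ) : Sig ζ A := by
  have := Sig.iUnion ζ (fun _ => ξ) (fun _ => A) (fun _ => Sig.one_le h) (fun _ => hξ) (fun _ => h)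
  rwa [iUnion_const] at this

theorem Sig.pi {ξ ζ : Ordinal.{0}} {A : Set X} (h : Sig ξ A) (hξ : ξ < ζ) : Pi0 ζ A := by
  apply Pi0.sig (ξ := ξ) _ hξ
  unfold Pi0
  rwa [compl_compl]

theorem sig_iUnion_nat {ξ : Ordinal.{0}} {A : ℕ → Set X} (h : ∀ n, Sig ξ (A n)) :
    Sig ξ (⋃ n, A n) := by
  have h1 := (h 0).one_le
  rcases h1.eq_or_lt with rfl | hξ
  · exact Sig.opn _ (isOpen_iUnion fun n => (h n).isOpen)
  · choose η B h1 h2 h3 h4 using fun n => (h n).repr hξ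
    have := Sig.iUnion ξ (fun m => η (Nat.unpair m).1 (Nat.unpair m).2)
      (fun m => B (Nat.unpair m).1 (Nat.unpair m).2) (fun m => h1 _ _) (fun m => h2 _ _)
      (fun m => h3 _ _)
    convert this using 1
    ext x
    simp only [h4, mem_iUnion]
    constructor
    · rintro ⟨i, j, hx⟩
      exact ⟨Nat.pair i j, by simpa using hx⟩
    · rintro ⟨m, hx⟩
      exact ⟨_, _, hx⟩

theorem sig_empty {ξ : Ordinal.{0}} (hξ : 1 ≤ ξ) : Sig ξ (∅ : Set X) := by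
  rcases hξ.eq_or_lt with rfl | hξ
  · exact Sig.opn _ isOpen_empty
  · have : Pi0 1 (∅ : Set X) := by
      unfold Pi0; rw [compl_empty]; exact Sig.opn _ isOpen_univ
    exact this.sig hξ

theorem sig_univ {ξ : Ordinal.{0}} (hξ : 1 ≤ ξ) : Sig ξ (univ : Set X) := by
  rcases hξ.eq_or_lt with rfl | hξ
  · exact Sig.opn _ isOpen_univ
  · have : Pi0 1 (univ : Set X) := by
      unfold Pi0; rw [compl_univ]; exact Sig.opn _ isOpen_empty
    exact this.sig hξ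

theorem pi_empty {ξ : Ordinal.{0}} (hξ : 1 ≤ ξ) : Pi0 ξ (∅ : Set X) := by
  unfold Pi0; rw [compl_empty]; exact sig_univ hξ

theorem pi_univ {ξ : Ordinal.{0}} (hξ : 1 ≤ ξ) : Pi0 ξ (univ : Set X) := by
  unfold Pi0; rw [compl_univ]; exact sig_empty hξ

theorem sig_iUnion {ι : Sort*} [Countable ι] {ξ : Ordinal.{0}} (hξ : 1 ≤ ξ) {A : ι → Set X}
    (h : ∀ i, Sig ξ (A i)) : Sig ξ (⋃ i, A i) := by
  cases isEmpty_or_nonempty ι
  · rw [iUnion_of_empty]; exact sig_empty hξ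
  · obtain ⟨e, he⟩ := exists_surjective_nat ι
    rw [← he.iUnion_comp]
    exact sig_iUnion_nat fun n => h _

theorem sig_biUnion {ι : Type*} {s : Set ι} (hs : s.Countable) {ξ : Ordinal.{0}} (hξ : 1 ≤ ξ)
    {A : ι → Set X} (h : ∀ i ∈ s, Sig ξ (A i)) : Sig ξ (⋃ i ∈ s, A i) := by
  rw [biUnion_eq_iUnion]
  have := hs.to_subtype
  exact sig_iUnion hξ fun i => h i i.2

theorem pi_iInter {ι : Sort*} [Countable ι] {ξ : Ordinal.{0}} (hξ : 1 ≤ ξ) {A : ι → Set X}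
    (h : ∀ i, Pi0 ξ (A i)) : Pi0 ξ (⋂ i, A i) := by
  unfold Pi0; rw [compl_iInter]; exact sig_iUnion hξ h

theorem pi_biInter {ι : Type*} {s : Set ι} (hs : s.Countable) {ξ : Ordinal.{0}} (hξ : 1 ≤ ξ)
    {A : ι → Set X} (h : ∀ i ∈ s, Pi0 ξ (A i)) : Pi0 ξ (⋂ i ∈ s, A i) := by
  unfold Pi0; rw [compl_iInter₂]; exact sig_biUnion hs hξ h

theorem Sig.union {ξ : Ordinal.{0}} {A B : Set X} (hA : Sig ξ A) (hB : Sig ξ B) :
    Sig ξ (A ∪ B) := by
  rw [union_eq_iUnion]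
  exact sig_iUnion hA.one_le (Bool.rec hB hA)

theorem Pi0.inter {ξ : Ordinal.{0}} {A B : Set X} (hA : Pi0 ξ A) (hB : Pi0 ξ B) :
    Pi0 ξ (A ∩ B) := by
  unfold Pi0; rw [compl_inter]; exact Sig.union hA hB

theorem Sig.inter [MetrizableSpace X] {ξ : Ordinal.{0}} {A B : Set X} (hA : Sig ξ A)
    (hB : Sig ξ B) : Sig ξ (A ∩ B) := by
  rcases hA.one_le.eq_or_lt with rfl | hξ
  · exact Sig.opn _ (hA.isOpen.inter hB.isOpen)
  · obtain ⟨η, U, h1, h2, h3, rfl⟩ := hA.repr hξ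
    obtain ⟨η', V, h1', h2', h3', rfl⟩ := hB.repr hξ
    rw [iUnion_inter_iUnion]
    refine sig_iUnion hξ.le (fun p => sig_iUnion hξ.le (fun q => ?_))
    have : Pi0 (max (η p) (η' q)) (U p ∩ V q) :=
      Pi0.inter (Pi0.mono (h3 _) (le_max_left _ _)) (Pi0.mono (h3' _) (le_max_right _ _))
    exact this.sig (max_lt (h2 _) (h2' _))

theorem Pi0.union [MetrizableSpace X] {ξ : Ordinal.{0}} {A B : Set X} (hA : Pi0 ξ A)
    (hB : Pi0 ξ B) : Pi0 ξ (A ∪ B) := by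
  unfold Pi0; rw [compl_union]; exact Sig.inter hA hB

theorem Sig.preimage {ξ : Ordinal.{0}} {A : Set X} (h : Sig ξ A) {f : Y → X}
    (hf : Continuous f) : Sig ξ (f ⁻¹' A) := by
  induction h with
  | opn U hU => exact Sig.opn _ (hU.preimage hf)
  | iUnion ξ η B h1 h2 h3 ih =>
    rw [preimage_iUnion]
    exact Sig.iUnion ξ η _ h1 h2 ih

theorem Pi0.preimage {ξ : Ordinal.{0}} {A : Set X} (h : Pi0 ξ A) {f : Y → X}
    (hf : Continuous f) : Pi0 ξ (f ⁻¹' A) := Sig.preimage h hf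

theorem Sig.measurableSet [MeasurableSpace X] [OpensMeasurableSpace X] {ξ : Ordinal.{0}}
    {A : Set X} (h : Sig ξ A) : MeasurableSet A := by
  induction h with
  | opn U hU => exact hU.measurableSet
  | iUnion ξ η B h1 h2 h3 ih =>
    exact MeasurableSet.iUnion fun n => (compl_compl (B n)) ▸ (ih n).compl

theorem Pi0.measurableSet [MeasurableSpace X] [OpensMeasurableSpace X] {ξ : Ordinal.{0}}
    {A : Set X} (h : Pi0 ξ A) : MeasurableSet A := (Sig.measurableSet h).of_compl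

theorem Del.compl {ξ : Ordinal.{0}} {A : Set X} (h : Del ξ A) : Del ξ Aᶜ :=
  ⟨h.2, by unfold Pi0; rw [compl_compl]; exact h.1⟩

theorem Del.inter [MetrizableSpace X] {ξ : Ordinal.{0}} {A B : Set X} (hA : Del ξ A)
    (hB : Del ξ B) : Del ξ (A ∩ B) := ⟨hA.1.inter hB.1, hA.2.inter hB.2⟩

theorem Del.union [MetrizableSpace X] {ξ : Ordinal.{0}} {A B : Set X} (hA : Del ξ A)
    (hB : Del ξ B) : Del ξ (A ∪ B) := ⟨hA.1.union hB.1, hA.2.union hB.2⟩

theorem Sig.del_succ [MetrizableSpace X] {ξ ζ : Ordinal.{0}} {A : Set X} (h : Sig ξ A)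
    (hξ : ξ < ζ) : Del ζ A := ⟨h.mono hξ.le, h.pi hξ⟩

theorem Pi0.del_succ [MetrizableSpace X] {ξ ζ : Ordinal.{0}} {A : Set X} (h : Pi0 ξ A)
    (hξ : ξ < ζ) : Del ζ A := ⟨h.sig hξ, h.mono hξ.le⟩

/-! ### countable ordinals -/

theorem countable_Iio {l : Ordinal.{0}} (h : l < ω₁) : (Set.Iio l).Countable := by
  rw [← Cardinal.le_aleph0_iff_set_countable, Cardinal.mk_Iio_ordinal, Cardinal.lift_le_aleph0]
  have h1 : l.card < Cardinal.aleph 1 := (Cardinal.lt_omega_iff_card_lt).1 h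
  rw [← Cardinal.succ_aleph0] at h1
  exact Order.lt_succ_iff.1 h1

theorem opow_lt {η : Ordinal.{0}} (h : η < ω₁) : (ω : Ordinal.{0}) ^ η < ω₁ :=
  Ordinal.isPrincipal_opow_omega 1 Ordinal.omega0_lt_omega_one h

theorem add_one_lt {η : Ordinal.{0}} (h : η < ω₁) : η + 1 < ω₁ :=
  Ordinal.isPrincipal_add_omega 1 h (Ordinal.one_lt_omega0.trans Ordinal.omega0_lt_omega_one)

theorem isSuccLimit_opow {η : Ordinal.{0}} (h : 1 ≤ η) :
    Order.IsSuccLimit ((ω : Ordinal.{0}) ^ η) :=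
  Ordinal.isSuccLimit_opow_left Ordinal.isSuccLimit_omega0 (by
    intro h0; rw [h0] at h; exact absurd h (by simp))

theorem exists_le_opow {θ : Ordinal.{0}} (h : θ < ω₁) :
    ∃ η : Ordinal.{0}, 1 ≤ η ∧ η < ω₁ ∧ θ ≤ ω ^ η := by
  refine ⟨θ + 1, by simp, add_one_lt h, ?_⟩
  have h1 := Ordinal.right_le_opow (θ + 1) Ordinal.one_lt_omega0
  exact (le_self_add).trans h1

theorem pi_iInter_lt {ξ : Ordinal.{0}} (hξ : 1 ≤ ξ) {l : Ordinal.{0}} (hl : l < ω₁)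
    {F : Ordinal.{0} → Set X} (h : ∀ θ < l, Pi0 ξ (F θ)) :
    Pi0 ξ (⋂ θ, ⋂ (_ : θ < l), F θ) :=
  pi_biInter (s := Set.Iio l) (countable_Iio hl) hξ h

theorem sig_iUnion_lt {ξ : Ordinal.{0}} (hξ : 1 ≤ ξ) {l : Ordinal.{0}} (hl : l < ω₁)
    {F : Ordinal.{0} → Set X} (h : ∀ θ < l, Sig ξ (F θ)) :
    Sig ξ (⋃ θ, ⋃ (_ : θ < l), F θ) :=
  sig_biUnion (s := Set.Iio l) (countable_Iio hl) hξ h

/-! ### parity -/

theorem ev_or (η : Ordinal.{0}) : Ev η ∨ ∃ ζ : Ordinal.{0}, η = 2 * ζ + 1 := by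
  have h := Ordinal.div_add_mod η 2
  have h2 : η % 2 < 2 := Ordinal.mod_lt η (by norm_num)
  have h3 : η % 2 = 0 ∨ η % 2 = 1 := by
    have h4 : η % 2 < 1 + 1 := by rw [one_add_one_eq_two]; exact h2
    exact Order.le_one_iff.1 (Order.lt_add_one_iff.1 h4)
  rcases h3 with h3 | h3
  · left; exact ⟨η / 2, by rw [h3, add_zero] at h; exact h.symm⟩
  · right; exact ⟨η / 2, by rw [h3] at h; exact h.symm⟩

theorem not_ev_odd (ζ : Ordinal.{0}) : ¬ Ev (2 * ζ + 1) := by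
  rintro ⟨ζ', h⟩
  have h1 : ζ < ζ' := by
    by_contra hc
    push Not at hc
    have : (2 : Ordinal.{0}) * ζ' ≤ 2 * ζ := mul_le_mul_right hc 2
    rw [← h] at this
    exact absurd this (not_le.2 (Order.lt_add_one_iff.2 le_rfl))
  have h2 : (2 : Ordinal.{0}) * (ζ + 1) ≤ 2 * ζ' :=
    mul_le_mul_right (Order.add_one_le_iff.2 h1) 2
  rw [← h, mul_add, mul_one] at h2
  have h3 : (1 : Ordinal.{0}) < 2 := by norm_num
  exact absurd h2 (not_le.2 ((add_lt_add_iff_left (2 * ζ)).2 h3))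

theorem ev_succ {η : Ordinal.{0}} : Ev (η + 1) ↔ ¬ Ev η := by
  rcases ev_or η with h | ⟨ζ, h⟩
  · have h' := h
    obtain ⟨ζ, hζ⟩ := h'
    constructor
    · intro h1
      rw [hζ] at h1
      exact absurd h1 (not_ev_odd ζ)
    · intro h1; exact absurd h h1
  · constructor
    · intro _; rw [h]; exact not_ev_odd ζ
    · intro _
      refine ⟨ζ + 1, ?_⟩
      rw [h, mul_add, mul_one, add_assoc, one_add_one_eq_two]

theorem ev_zero : Ev 0 := ⟨0, by simp⟩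

end Pool.Agent.R591.BR
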