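import Mathlib

/-!
# Borel classes, transfinite differences, the separation rank (MP_106504_lc)
-/

set_option autoImplicit false

namespace Pool.Agent.R591.BR

open Set Topology
open scoped Ordinal

/-- `Sig ξ A`: the set `A` is in `Σ⁰_ξ(X)`, for `1 ≤ ξ`: the sets in `Σ⁰_1` are the open sets; for
`ξ > 1` the sets in `Σ⁰_ξ` are the countable unions of sets whose complements are in `Σ⁰_η` for some
`1 ≤ η < ξ` (which may depend on the set). -/
inductive Sig {X : Type} [TopologicalSpace X] : Ordinal.{0} → Set X → Prop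
  | opn (U : Set X) (hU : IsOpen U) : Sig 1 U
  | iUnion (ξ : Ordinal.{0}) (η : ℕ → Ordinal.{0}) (B : ℕ → Set X)
      (h1 : ∀ n, 1 ≤ η n) (h2 : ∀ n, η n < ξ) (hB : ∀ n, Sig (η n) (B n)ᶜ) : Sig ξ (⋃ n, B n)

/-- `A ∈ Π⁰_ξ(X)` -/
def Pi0 {X : Type} [TopologicalSpace X] (ξ : Ordinal.{0}) (A : Set X) : Prop := Sig ξ Aᶜ

/-- `A ∈ Δ⁰_ξ(X)` -/
def Del {X : Type} [TopologicalSpace X] (ξ : Ordinal.{0}) (A : Set X) : Prop :=
  Sig ξ A ∧ Pi0 ξ A

/-- even ordinals: those of the form `2 · ζ` (a limit ordinal or zero plus an even natural number) -/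
def Ev (η : Ordinal.{0}) : Prop := ∃ ζ : Ordinal.{0}, η = 2 * ζ

/-- `F` (of which only the values below the limit ordinal `l` matter) is a decreasing
sequence of `Π⁰_ξ` sets, continuous below `l`, starting with the whole space. -/
structure Seq0 {X : Type} [TopologicalSpace X] (ξ l : Ordinal.{0}) (F : Ordinal.{0} → Set X) :
    Prop where
  zero : F 0 = univ
  anti : ∀ θ η, θ ≤ η → η < l → F η ⊆ F θ
  pi : ∀ η, η < l → Pi0 ξ (F η)
  lim : ∀ η, η < l → Order.IsSuccLimit η → F η = ⋂ θ, ⋂ (_ : θ < η), F θ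

/-- transfinite difference -/
def DiffSet {X : Type} (l : Ordinal.{0}) (F : Ordinal.{0} → Set X) : Set X :=
  {x | ∃ η, η < l ∧ Ev η ∧ x ∈ F η ∧ x ∉ F (η + 1)}

/-- `F` is a continuous decreasing sequence of `Π⁰_ξ` sets of length `l`, in the sense of the
problem: `F 0 = X`, `F η = ⋂_{θ < η} F θ` for limit `η < l`, the intersection is empty if `l` is a
limit, and `F η = ∅` for `η ≥ l`. -/
structure IsSeq {X : Type} [TopologicalSpace X] (ξ l : Ordinal.{0}) (F : Ordinal.{0} → Set X) :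
    Prop where
  zero : F 0 = univ
  anti : ∀ θ η, θ ≤ η → F η ⊆ F θ
  pi : ∀ η, η < l → Pi0 ξ (F η)
  lim : ∀ η, η < l → Order.IsSuccLimit η → F η = ⋂ θ, ⋂ (_ : θ < η), F θ
  inter : Order.IsSuccLimit l → (⋂ θ, ⋂ (_ : θ < l), F θ) = ∅
  out : ∀ η, l ≤ η → F η = ∅

/-- `A` and `B` are separated by the transfinite difference of a sequence of length `l` -/
def SepLen {X : Type} [TopologicalSpace X] (ξ : Ordinal.{0}) (A B : Set X) (l : Ordinal.{0}) :
    Prop :=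
  ∃ F : Ordinal.{0} → Set X, IsSeq ξ l F ∧ A ⊆ DiffSet l F ∧ Disjoint B (DiffSet l F)

/-- `α_ξ(A, B)`: the least countable length of a separating sequence (`ω₁` if there is none). -/
noncomputable def alphaSet {X : Type} [TopologicalSpace X] (ξ : Ordinal.{0}) (A B : Set X) :
    Ordinal.{0} :=
  sInf {l | l = ω₁ ∨ SepLen ξ A B l}

/-- `α_ξ(f)`: the supremum of `α_ξ({f ≤ p}, {f ≥ q})` over the rational `p < q`. -/
noncomputable def alpha {X : Type} [TopologicalSpace X] (ξ : Ordinal.{0}) (f : X → ℝ) :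
    Ordinal.{0} :=
  ⨆ r : {r : ℚ × ℚ // r.1 < r.2}, alphaSet ξ {x | f x ≤ (r.1.1 : ℝ)} {x | (r.1.2 : ℝ) ≤ f x}

/-- bounded functions of Baire class `ξ`: the preimages of open sets are in `Σ⁰_{ξ+1}` -/
def BC {X : Type} [TopologicalSpace X] (ξ : Ordinal.{0}) (f : X → ℝ) : Prop :=
  (∃ M : ℝ, ∀ x, |f x| ≤ M) ∧ ∀ U : Set ℝ, IsOpen U → Sig (ξ + 1) (f ⁻¹' U)

/-- `θ ≲ θ'` -/
def Lesssim (θ θ' : Ordinal.{0}) : Prop :=
  ∀ η : Ordinal.{0}, 1 ≤ η → η < ω₁ → θ' ≤ ω ^ η → θ ≤ ω ^ η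

/-- `θ ≈ θ'` -/
def Approx (θ θ' : Ordinal.{0}) : Prop := Lesssim θ θ' ∧ Lesssim θ' θ

/-- characteristic function -/
noncomputable def chi {X : Type} (A : Set X) : X → ℝ := A.indicator 1

/-- `ρ` is a rank on the bounded Baire class `ξ` functions with the properties 1-5. -/
structure IsRank (ξ : Ordinal.{0})
    (ρ : (X : Type) → [TopologicalSpace X] → (X → ℝ) → Ordinal.{0}) : Prop where
  lt : ∀ (X : Type) [TopologicalSpace X] [PolishSpace X] (f : X → ℝ), BC ξ f → ρ X f < ω₁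
  p1 : ∀ (X : Type) [TopologicalSpace X] [PolishSpace X] (A : Set X), Del (ξ + 1) A →
    Approx (ρ X (chi A)) (alpha ξ (chi A))
  p2a : ∀ (X : Type) [TopologicalSpace X] [PolishSpace X] (f : X → ℝ) (c : ℝ), BC ξ f → c ≠ 0 →
    Approx (ρ X (fun x => c * f x)) (ρ X f)
  p2b : ∀ (X : Type) [TopologicalSpace X] [PolishSpace X] (f g : X → ℝ), BC ξ f → BC ξ g →
    Lesssim (ρ X (fun x => f x + g x)) (max (ρ X f) (ρ X g))
  p3 : ∀ (X : Type) [TopologicalSpace X] [PolishSpace X] (f : X → ℝ) (g : ℕ → X → ℝ), BC ξ f →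
    (∀ n, BC ξ (g n)) → TendstoUniformly g f Filter.atTop →
    Lesssim (ρ X f) (⨆ n, ρ X (g n))
  p4 : ∀ (X : Type) [TopologicalSpace X] [PolishSpace X] (f : X → ℝ) (h : ℝ → ℝ), BC ξ f →
    (∃ L, LipschitzWith L h) → Lesssim (ρ X (fun x => h (f x))) (ρ X f)
  p5 : ∀ (X : Type) [TopologicalSpace X] [PolishSpace X] (f : X → ℝ) (H : Set X), BC ξ f →
    Pi0 2 H → Lesssim (ρ H (fun x : H => f x)) (ρ X f)

/-- The main theorem -/
def Stm_Main : Prop :=
  ∀ ξ : Ordinal.{0}, 2 ≤ ξ → ξ < ω₁ →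
    ∀ ρ : (X : Type) → [TopologicalSpace X] → (X → ℝ) → Ordinal.{0}, IsRank ξ ρ →
      ∀ (X : Type) [TopologicalSpace X] [PolishSpace X] (f : X → ℝ), BC ξ f →
        alpha ξ f < ω₁ ∧ Approx (ρ X f) (alpha ξ f)

/-! ## Pieces -/

/-- `A` is contained in, and `B` is disjoint from, a transfinite difference of length `l` (no
condition on the intersection of the whole sequence, whose points are not in the difference). -/
def GSep {X : Type} [TopologicalSpace X] (ξ l : Ordinal.{0}) (A B : Set X) : Prop :=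
  ∃ F : Ordinal.{0} → Set X, Seq0 ξ l F ∧ A ⊆ DiffSet l F ∧ Disjoint B (DiffSet l F)

/-- Piece H: there is a set in the class of differences of length `l` whose complement is not. -/
def Stm_H : Prop :=
  ∀ ξ : Ordinal.{0}, 1 ≤ ξ → ξ < ω₁ → ∀ l : Ordinal.{0}, l < ω₁ → Order.IsSuccLimit l →
    ∃ C : Set (ℕ → Bool), GSep ξ l C Cᶜ ∧ ¬ GSep ξ l Cᶜ C

/-- Piece O: nonempty Polish spaces are continuous open images of the Baire space. -/
def Stm_O : Prop :=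
  ∀ (X : Type) [TopologicalSpace X] [PolishSpace X] [Nonempty X],
    ∃ π : (ℕ → ℕ) → X, Continuous π ∧ IsOpenMap π ∧ Function.Surjective π

/-- Piece V: Vaught transforms of differences along a continuous open surjection. -/
def Stm_V : Prop :=
  ∀ (X : Type) [TopologicalSpace X] [PolishSpace X] (π : (ℕ → ℕ) → X), Continuous π →
    IsOpenMap π → Function.Surjective π → ∀ ξ : Ordinal.{0}, 1 ≤ ξ → ∀ l : Ordinal.{0}, l < ω₁ →
    Order.IsSuccLimit l → ∀ A B : Set X, GSep ξ l (π ⁻¹' A) (π ⁻¹' B) → GSep ξ l A B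

/-- Piece G: the separation game (from Borel determinacy). -/
def Stm_G : Prop :=
  ∀ (A B : Set (ℕ → ℕ)) (C : Set (ℕ → Bool)), MeasurableSet A → MeasurableSet B →
    MeasurableSet C →
    (∃ φ : (ℕ → Bool) → (ℕ → ℕ), Continuous φ ∧ (∀ x ∈ C, φ x ∈ B) ∧ ∀ x ∉ C, φ x ∈ A) ∨
    (∃ ψ : (ℕ → ℕ) → (ℕ → Bool), Continuous ψ ∧ (∀ y ∈ A, ψ y ∈ C) ∧ ∀ y ∈ B, ψ y ∉ C)

/-- Piece U: the upper bound. -/
def Stm_U : Prop :=
  ∀ ξ : Ordinal.{0}, 2 ≤ ξ → ξ < ω₁ →
    ∀ ρ : (X : Type) → [TopologicalSpace X] → (X → ℝ) → Ordinal.{0}, IsRank ξ ρ →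
      ∀ (X : Type) [TopologicalSpace X] [PolishSpace X] (f : X → ℝ), BC ξ f →
        ∀ η : Ordinal.{0}, 1 ≤ η → η < ω₁ → alpha ξ f ≤ ω ^ η → ρ X f ≤ ω ^ η

/-- Piece R: reduction of countable covers. -/
def Stm_R : Prop :=
  ∀ (X : Type) [TopologicalSpace X] [PolishSpace X] (ξ : Ordinal.{0}), 2 ≤ ξ →
    ∀ S : ℕ → Set X, (∀ n, Sig ξ (S n)) → (⋃ n, S n) = univ →
      ∃ P : ℕ → Set X, (∀ n, P n ⊆ S n) ∧ (∀ n, Del ξ (P n)) ∧
        Pairwise (fun m n => Disjoint (P m) (P n)) ∧ (⋃ n, P n) = univ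

end Pool.Agent.R591.BR
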