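import Pool.Agent.R549.BD.Defs
import Pool.Agent.R591.BR.Defs

/-! The separation game from Borel determinacy. -/

set_option autoImplicit false

open MeasureTheory

namespace Pool.Agent.R591.BR.G

open Pool.Agent.R549.BD

/-- The game tree: positions are finite lists of moves, newest first. -/
def T0 : GTree.{0} where
  Pos := List ℕ
  len := List.length
  par := List.tail
  root := []
  len_root := rfl
  eq_root := fun _ h => List.length_eq_zero_iff.1 h
  len_par := fun _ => List.length_tail
  succ := fun p => ⟨0 :: p, rfl, rfl⟩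

/-- The move at time `n`. -/
def move (x : ℕ → List ℕ) (n : ℕ) : ℕ := (x (n + 1)).headD 0

/-- The point built by player 0. -/
def U (x : ℕ → List ℕ) : ℕ → Bool := fun k => decide (move x (2 * k) % 2 = 1)

/-- The point built by player 1. -/
def D (x : ℕ → List ℕ) : ℕ → ℕ := fun k => move x (2 * k + 1)

/-- The sigma-algebra of the sets which are Borel in the sense of `BorelT`. -/
@[reducible] def ms : MeasurableSpace (ℕ → List ℕ) where
  MeasurableSet' A := T0.BorelT A
  measurableSet_empty := by
    have h := GTree.BorelT.fin (T := T0) 0 ∅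
    have e : ({x | x 0 ∈ (∅ : Set T0.Pos)} : Set (ℕ → T0.Pos)) = ∅ := by
      ext x; simp
    rw [e] at h
    exact h
  measurableSet_compl A h := @GTree.BorelT.compl T0 A h
  measurableSet_iUnion f h := @GTree.BorelT.iUnion T0 f h

theorem ms_iff (A : Set (ℕ → List ℕ)) : @MeasurableSet _ ms A ↔ T0.BorelT A := Iff.rfl

theorem meas_move (n : ℕ) : Measurable[ms] (fun x : ℕ → List ℕ => move x n) := by
  intro s _
  exact (ms_iff _).2 (GTree.BorelT.fin (T := T0) (n + 1) {p : List ℕ | p.headD 0 ∈ s})

theorem meas_U : Measurable[ms] U := by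
  let _ := ms
  refine measurable_pi_iff.2 fun k => ?_
  exact (measurable_from_top (f := fun n : ℕ => decide (n % 2 = 1))).comp (meas_move (2 * k))

theorem meas_D : Measurable[ms] D := by
  let _ := ms
  refine measurable_pi_iff.2 fun k => ?_
  exact meas_move _

theorem borel_payoff {A B : Set (ℕ → ℕ)} {C : Set (ℕ → Bool)} (hA : MeasurableSet A)
    (hB : MeasurableSet B) (hC : MeasurableSet C) :
    T0.BorelT {x : ℕ → List ℕ | (U x ∈ C ∧ D x ∉ B) ∨ (U x ∉ C ∧ D x ∉ A)} := by
  let _ := ms
  have h1 : MeasurableSet {x : ℕ → List ℕ | U x ∈ C} := meas_U hC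
  have h2 : MeasurableSet {x : ℕ → List ℕ | D x ∈ A} := meas_D hA
  have h3 : MeasurableSet {x : ℕ → List ℕ | D x ∈ B} := meas_D hB
  exact (ms_iff _).1 ((h1.inter h3.compl).union (h1.compl.inter h2.compl))

/-- The play of a strategy against a sequence of moves. -/
def pl (i : ℕ) (s : List ℕ → List ℕ) (h : ℕ → ℕ) : ℕ → List ℕ
  | 0 => []
  | n + 1 => if n % 2 = i then s (pl i s h n) else h (n / 2) :: pl i s h n

theorem pl_play (i : ℕ) (s : List ℕ → List ℕ) (hs : T0.IsStrat s) (h : ℕ → ℕ) :
    T0.IsPlay (pl i s h) := by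
  have hlen : ∀ n, (pl i s h n).length = n := by
    intro n
    induction n with
    | zero => rfl
    | succ n ih =>
      simp only [pl]
      split_ifs
      · have := (hs (pl i s h n)).2
        change (s (pl i s h n)).length = (pl i s h n).length + 1 at this
        rw [this, ih]
      · rw [List.length_cons, ih]
  refine ⟨hlen, ?_⟩
  intro n
  change (pl i s h (n + 1)).tail = pl i s h n
  simp only [pl]
  split_ifs
  · exact (hs (pl i s h n)).1
  · rfl

theorem pl_cons (i : ℕ) (s : List ℕ → List ℕ) (h : ℕ → ℕ) : T0.Cons i s (pl i s h) := by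
  intro n hn
  simp only [pl]
  rw [if_pos hn]

theorem pl_move (i : ℕ) (s : List ℕ → List ℕ) (h : ℕ → ℕ) (n : ℕ) (hn : n % 2 ≠ i) :
    move (pl i s h) n = h (n / 2) := by
  simp only [move, pl]
  rw [if_neg hn]
  rfl

theorem pl_congr (i : ℕ) (s : List ℕ → List ℕ) {n : ℕ} {h h' : ℕ → ℕ}
    (e : ∀ k, k ≤ n → h k = h' k) : ∀ m, m ≤ 2 * n + 2 → pl i s h m = pl i s h' m := by
  intro m
  induction m with
  | zero => intro _; rfl
  | succ m ih =>
    intro hm
    simp only [pl]
    rw [ih (by omega), e (m / 2) (by omega)]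

theorem move_congr (i : ℕ) (s : List ℕ → List ℕ) {n : ℕ} {h h' : ℕ → ℕ}
    (e : ∀ k, k ≤ n → h k = h' k) (m : ℕ) (hm : m ≤ 2 * n + 1) :
    move (pl i s h) m = move (pl i s h') m := by
  unfold move
  rw [pl_congr i s e (m + 1) (by omega)]

/-- the map `h ↦ move (pl i s h) m` is continuous -/
theorem cont_move (i : ℕ) (s : List ℕ → List ℕ) (m : ℕ) :
    Continuous (fun h : ℕ → ℕ => move (pl i s h) m) := by
  rw [continuous_iff_continuousAt]
  intro h
  apply ContinuousAt.congr (f := fun _ => move (pl i s h) m) continuousAt_const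
  have : ∀ᶠ h' in nhds h, ∀ k ∈ Finset.range (m + 1), h' k = h k := by
    rw [Filter.eventually_all_finset]
    intro k _
    have h1 : IsOpen ((fun h' : ℕ → ℕ => h' k) ⁻¹' {h k}) :=
      (isOpen_discrete _).preimage (continuous_apply k)
    exact h1.mem_nhds rfl
  filter_upwards [this] with h' hh'
  exact move_congr i s (n := m) (fun k hk => (hh' k (Finset.mem_range.2 (by omega))).symm) m
    (by omega)

theorem main_G (hdet : Stm_BorelDet.{0}) : Stm_G := by
  intro A B C hA hB hC
  rcases hdet T0 _ (borel_payoff hA hB hC) with ⟨s, hs, hw⟩ | ⟨s, hs, hw⟩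
  · right
    refine ⟨fun y => U (pl 0 s y), ?_, ?_, ?_⟩
    · refine continuous_pi fun k => ?_
      exact (continuous_of_discreteTopology (f := fun n : ℕ => decide (n % 2 = 1))).comp
        (cont_move 0 s (2 * k))
    all_goals
      intro y hy
      have h1 := hw (pl 0 s y) (pl_play 0 s hs y) (pl_cons 0 s y)
      have h2 : D (pl 0 s y) = y := by
        funext k
        simp only [D]
        rw [pl_move 0 s y _ (by omega), show (2 * k + 1) / 2 = k by omega]
      change (U (pl 0 s y) ∈ C ∧ D (pl 0 s y) ∉ B) ∨ (U (pl 0 s y) ∉ C ∧ D (pl 0 s y) ∉ A) at h1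
      rw [h2] at h1
      tauto
  · left
    let c : (ℕ → Bool) → (ℕ → ℕ) := fun x k => if x k then 1 else 0
    have hc : Continuous c := continuous_pi fun k =>
      (continuous_of_discreteTopology (f := fun b : Bool => if b then 1 else 0)).comp
        (continuous_apply k)
    refine ⟨fun x => D (pl 1 s (c x)), ?_, ?_, ?_⟩
    · refine continuous_pi fun k => ?_
      exact (cont_move 1 s (2 * k + 1)).comp hc
    all_goals
      intro x hx
      have h1 := hw (pl 1 s (c x)) (pl_play 1 s hs (c x)) (pl_cons 1 s (c x))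
      have h2 : U (pl 1 s (c x)) = x := by
        funext k
        simp only [U]
        rw [pl_move 1 s (c x) _ (by omega), show (2 * k) / 2 = k by omega]
        simp only [c]
        by_cases hk : x k = true
        · simp [hk]
        · simp [hk]
      change ¬ ((U (pl 1 s (c x)) ∈ C ∧ D (pl 1 s (c x)) ∉ B) ∨
        (U (pl 1 s (c x)) ∉ C ∧ D (pl 1 s (c x)) ∉ A)) at h1
      rw [h2] at h1
      tauto

end Pool.Agent.R591.BR.G
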