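import Pool.Agent.R591.BR.Basic

/-!
# Piece H (helper325): universal sets and a hard set for transfinite differences
-/

set_option autoImplicit false

namespace Pool.Agent.R591.BR.H

open Set Topology TopologicalSpace
open scoped Ordinal

/-- the Cantor space -/
abbrev Om : Type := ℕ → Bool

/-- the `k`-th coordinate -/
def co (k : ℕ) (y : Om) : Om := fun n => y (Nat.pair k n)

theorem continuous_co (k : ℕ) : Continuous (co k) :=
  continuous_pi fun n => continuous_apply (Nat.pair k n)

theorem exists_co (z : ℕ → Om) : ∃ y : Om, ∀ k, co k y = z k := by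
  refine ⟨fun n => z (Nat.unpair n).1 (Nat.unpair n).2, fun k => ?_⟩
  funext n
  simp [co]

/-- universal sets -/
def Univ (ξ : Ordinal.{0}) (U : Set (Om × Om)) : Prop :=
  Sig ξ U ∧ ∀ A : Set Om, Sig ξ A → ∃ y : Om, A = {x | (y, x) ∈ U}

theorem exists_univ_one : ∃ U : Set (Om × Om), Univ 1 U := by
  classical
  obtain ⟨b, hbc, hbe, hb⟩ := TopologicalSpace.exists_countable_basis Om
  have hne : b.Nonempty := by
    by_contra hc
    rw [not_nonempty_iff_eq_empty] at hc
    have h1 := hb.sUnion_eq
    rw [hc, sUnion_empty] at h1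
    have : (fun _ => true : Om) ∈ (univ : Set Om) := mem_univ _
    rw [← h1] at this
    exact this
  obtain ⟨f, hf⟩ := hbc.exists_eq_range hne
  refine ⟨⋃ n, {p : Om × Om | p.1 n = true ∧ p.2 ∈ f n}, ?_, ?_⟩
  · apply Sig.opn
    apply isOpen_iUnion
    intro n
    have h1 : IsOpen {p : Om × Om | p.1 n = true} := by
      have : Continuous fun p : Om × Om => p.1 n := (continuous_apply n).comp continuous_fst
      exact (isOpen_discrete ({true} : Set Bool)).preimage this
    have h2 : IsOpen {p : Om × Om | p.2 ∈ f n} :=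
      (hb.isOpen (by rw [hf]; exact mem_range_self n)).preimage continuous_snd
    exact h1.inter h2
  · intro A hA
    have hA' := hA.isOpen
    refine ⟨fun n => decide (f n ⊆ A), ?_⟩
    ext x
    simp only [mem_iUnion, mem_ofPred_eq, decide_eq_true_eq]
    constructor
    · intro hx
      obtain ⟨s, hs, hxs, hsA⟩ := hb.exists_subset_of_mem_open hx hA'
      rw [hf] at hs
      obtain ⟨n, rfl⟩ := hs
      exact ⟨n, hsA, hxs⟩
    · rintro ⟨n, hn, hx⟩
      exact hn hx

theorem exists_univ (ξ : Ordinal.{0}) (h1 : 1 ≤ ξ) (hξ : ξ < ω₁) :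
    ∃ U : Set (Om × Om), Univ ξ U := by
  classical
  induction ξ using WellFoundedLT.induction with
  | ind ξ ih =>
    rcases h1.eq_or_lt with rfl | h1'
    · exact exists_univ_one
    · have hc : {η : Ordinal.{0} | 1 ≤ η ∧ η < ξ}.Countable :=
        (countable_Iio hξ).mono fun η hη => hη.2
      obtain ⟨e, he⟩ := hc.exists_eq_range ⟨1, le_rfl, h1'⟩
      have he1 : ∀ m, 1 ≤ e m ∧ e m < ξ := by
        intro m
        have : e m ∈ {η : Ordinal.{0} | 1 ≤ η ∧ η < ξ} := by rw [he]; exact mem_range_self m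
        exact this
      have he2 : ∀ η, 1 ≤ η → η < ξ → ∃ m, e m = η := by
        intro η h h'
        have : η ∈ {η : Ordinal.{0} | 1 ≤ η ∧ η < ξ} := ⟨h, h'⟩
        rw [he] at this
        exact this
      have hU : ∀ m, ∃ U : Set (Om × Om), Univ (e m) U := fun m =>
        ih (e m) (he1 m).2 (he1 m).1 ((he1 m).2.trans hξ)
      choose U hUs hUu using hU
      refine ⟨⋃ n, {p : Om × Om | (co n p.1, p.2) ∉ U (Nat.unpair n).1}, ?_, ?_⟩
      · refine Sig.iUnion ξ (fun n => e (Nat.unpair n).1) _ (fun n => (he1 _).1)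
          (fun n => (he1 _).2) (fun n => ?_)
        have h2 : {p : Om × Om | (co n p.1, p.2) ∉ U (Nat.unpair n).1}ᶜ =
            (fun p : Om × Om => (co n p.1, p.2)) ⁻¹' U (Nat.unpair n).1 := by
          ext p
          simp
        rw [h2]
        exact (hUs _).preimage (((continuous_co n).comp continuous_fst).prodMk continuous_snd)
      · intro A hA
        obtain ⟨η, B, hη1, hη2, hB, rfl⟩ := hA.repr h1'
        have hm : ∀ k, ∃ m, e m = η k := fun k => he2 (η k) (hη1 k) (hη2 k)
        choose m hm using hm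
        have hy : ∀ k, ∃ y : Om, (B k)ᶜ = {x | (y, x) ∈ U (m k)} := by
          intro k
          apply hUu (m k)
          rw [hm k]
          exact hB k
        choose y hy using hy
        have hu : ∀ j, ∃ y : Om, (univ : Set Om) = {x | (y, x) ∈ U j} := fun j =>
          hUu j _ (sig_univ (he1 j).1)
        choose yu hyu using hu
        obtain ⟨w, hw⟩ := exists_co (fun n =>
          if m (Nat.unpair n).2 = (Nat.unpair n).1 then y (Nat.unpair n).2
            else yu (Nat.unpair n).1)
        refine ⟨w, ?_⟩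
        ext x
        simp only [mem_iUnion, mem_ofPred_eq, hw]
        constructor
        · rintro ⟨k, hk⟩
          refine ⟨Nat.pair (m k) k, ?_⟩
          simp only [Nat.unpair_pair, if_true]
          intro hx
          have : x ∈ (B k)ᶜ := by rw [hy k]; exact hx
          exact this hk
        · rintro ⟨n, hn⟩
          by_cases h : m (Nat.unpair n).2 = (Nat.unpair n).1
          · rw [if_pos h, ← h] at hn
            refine ⟨(Nat.unpair n).2, ?_⟩
            by_contra hx
            have : x ∈ (B (Nat.unpair n).2)ᶜ := hx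
            rw [hy] at this
            exact hn this
          · rw [if_neg h] at hn
            exfalso
            apply hn
            have : x ∈ (univ : Set Om) := mem_univ x
            rw [hyu (Nat.unpair n).1] at this
            exact this

theorem eq_inter_succ {ξ l : Ordinal.{0}} {F : Ordinal.{0} → Set Om} (hF : Seq0 ξ l F)
    (θ : Ordinal.{0}) (hθ : θ < l) : (⋂ τ, ⋂ (_ : τ < θ), F (τ + 1)) = F θ := by
  ext x
  simp only [mem_iInter]
  constructor
  · intro h
    rcases Ordinal.zero_or_succ_or_isSuccLimit θ with rfl | ⟨τ, rfl⟩ | hlim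
    · rw [hF.zero]; exact mem_univ x
    · exact h τ (Order.lt_succ τ)
    · rw [hF.lim θ hθ hlim]
      simp only [mem_iInter]
      intro τ hτ
      exact hF.anti τ (τ + 1) le_self_add ((hlim.succ_lt hτ).trans hθ) (h τ hτ)
  · intro h τ hτ
    exact hF.anti (τ + 1) θ (Order.add_one_le_iff.2 hτ) hθ h

theorem diff_congr {l : Ordinal.{0}} (hl : Order.IsSuccLimit l) {F G : Ordinal.{0} → Set Om}
    (h : ∀ θ, θ < l → F θ = G θ) : DiffSet l F = DiffSet l G := by
  ext x
  unfold DiffSet
  constructor
  · rintro ⟨η, h1, h2, h3, h4⟩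
    have h5 : η + 1 < l := hl.succ_lt h1
    exact ⟨η, h1, h2, by rw [← h η h1]; exact h3, by rw [← h _ h5]; exact h4⟩
  · rintro ⟨η, h1, h2, h3, h4⟩
    have h5 : η + 1 < l := hl.succ_lt h1
    exact ⟨η, h1, h2, by rw [h η h1]; exact h3, by rw [h _ h5]; exact h4⟩

theorem main_H : Stm_H := by
  classical
  intro ξ h1 hξ l hl hlim
  obtain ⟨U, hUs, hUu⟩ := exists_univ ξ h1 hξ
  obtain ⟨c, hc⟩ := countable_iff_exists_injOn.1 (countable_Iio hl)
  set G : Om → Ordinal.{0} → Set Om := fun y θ => {x | (co (c θ) y, x) ∉ U} with hG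
  set F : Om → Ordinal.{0} → Set Om := fun y θ => ⋂ τ, ⋂ (_ : τ < θ), G y τ with hF
  set FC : Ordinal.{0} → Set Om := fun θ => ⋂ τ, ⋂ (_ : τ < θ), {x | (co (c τ) x, x) ∉ U} with hFC
  have hFCm : ∀ x θ, x ∈ FC θ ↔ x ∈ F x θ := by
    intro x θ
    simp only [hFC, hF, hG, mem_iInter, mem_ofPred_eq]
  have hseq : Seq0 ξ l FC := by
    refine ⟨?_, ?_, ?_, ?_⟩
    · simp only [hFC]
      ext x
      simp only [mem_iInter, mem_univ, iff_true]
      intro τ hτ
      exact absurd hτ (not_lt.2 (zero_le))
    · intro θ η h _ x hx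
      simp only [hFC, mem_iInter] at hx ⊢
      exact fun τ hτ => hx τ (hτ.trans_le h)
    · intro η hη
      apply pi_iInter_lt h1 (hη.trans hl)
      intro τ _
      unfold Pi0
      have h2 : {x : Om | (co (c τ) x, x) ∉ U}ᶜ = (fun x : Om => (co (c τ) x, x)) ⁻¹' U := by
        ext x
        simp
      rw [h2]
      exact hUs.preimage ((continuous_co (c τ)).prodMk continuous_id)
    · intro η hη hηl
      ext x
      simp only [hFC, mem_iInter]
      constructor
      · intro h θ hθ τ hτ
        exact h τ (hτ.trans hθ)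
      · intro h τ hτ
        exact h (τ + 1) (hηl.succ_lt hτ) τ (Order.lt_succ τ)
  refine ⟨DiffSet l FC, ⟨FC, hseq, le_rfl, disjoint_compl_left⟩, ?_⟩
  rintro ⟨F', hF', hsub, hdis⟩
  have hF'eq : DiffSet l F' = (DiffSet l FC)ᶜ := by
    apply le_antisymm _ hsub
    intro x hx hx'
    exact Set.disjoint_left.1 hdis hx' hx
  -- a code of the sequence `F'`
  have hcode : ∀ θ : Ordinal.{0}, ∃ y : Om, θ < l → (F' (θ + 1))ᶜ = {x | (y, x) ∈ U} := by
    intro θ
    by_cases hθ : θ < l
    · obtain ⟨y, hy⟩ := hUu _ (hF'.pi (θ + 1) (hlim.succ_lt hθ))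
      exact ⟨y, fun _ => hy⟩
    · exact ⟨fun _ => true, fun h => absurd h hθ⟩
  choose yc hyc using hcode
  obtain ⟨y, hy⟩ := exists_co (fun n => if h : ∃ θ, θ < l ∧ c θ = n then yc h.choose
    else fun _ => true)
  have hyθ : ∀ θ, θ < l → co (c θ) y = yc θ := by
    intro θ hθ
    have hex : ∃ θ', θ' < l ∧ c θ' = c θ := ⟨θ, hθ, rfl⟩
    rw [hy, dif_pos hex]
    congr 1
    exact hc hex.choose_spec.1 hθ hex.choose_spec.2
  have hGy : ∀ θ, θ < l → G y θ = F' (θ + 1) := by
    intro θ hθ
    simp only [hG]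
    rw [hyθ θ hθ]
    have := hyc θ hθ
    ext x
    constructor
    · intro hx
      by_contra hx'
      have h2 : x ∈ (F' (θ + 1))ᶜ := hx'
      rw [this] at h2
      exact hx h2
    · intro hx hx'
      have h2 : x ∈ (F' (θ + 1))ᶜ := by rw [this]; exact hx'
      exact h2 hx
  have hFy : ∀ θ, θ < l → F y θ = F' θ := by
    intro θ hθ
    rw [← eq_inter_succ hF' θ hθ]
    simp only [hF]
    apply iInter_congr
    intro τ
    apply iInter_congr
    intro hτ
    exact hGy τ (hτ.trans hθ)
  have h3 : DiffSet l (F y) = (DiffSet l FC)ᶜ := by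
    rw [← hF'eq]
    exact diff_congr hlim hFy
  have h4 : y ∈ DiffSet l FC ↔ y ∈ DiffSet l (F y) := by
    unfold DiffSet
    simp only [mem_ofPred_eq, hFCm]
  rw [h3] at h4
  by_cases h5 : y ∈ DiffSet l FC
  · exact (h4.1 h5) h5
  · exact h5 (h4.2 h5)

end Pool.Agent.R591.BR.H
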