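import Pool.Agent.R591.BR.Seq

/-!
# The lower bound and the main theorem
-/

set_option autoImplicit false

namespace Pool.Agent.R591.BR

open Set Topology TopologicalSpace
open scoped Ordinal

section

variable {X : Type} [TopologicalSpace X] {ξ l : Ordinal.{0}}

theorem GSep.measurable [MeasurableSpace X] [BorelSpace X] {C : Set X} (hl : l < ω₁)
    (hlim : Order.IsSuccLimit l) (h : GSep ξ l C Cᶜ) : MeasurableSet C := by
  classical
  obtain ⟨F, hF, h1, h2⟩ := h
  have hC : C = ⋃ η ∈ Set.Iio l, (if Ev η then F η \ F (η + 1) else ∅) := by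
    ext x
    constructor
    · intro hx
      obtain ⟨η, a1, a2, a3, a4⟩ := h1 hx
      refine mem_iUnion₂.2 ⟨η, a1, ?_⟩
      rw [if_pos a2]
      exact ⟨a3, a4⟩
    · intro hx
      obtain ⟨η, a1, a2⟩ := mem_iUnion₂.1 hx
      by_contra hc
      split_ifs at a2 with h3
      · exact Set.disjoint_left.1 h2 hc ⟨η, a1, h3, a2.1, a2.2⟩
      · exact a2
  rw [hC]
  refine MeasurableSet.biUnion (countable_Iio hl) fun η hη => ?_
  split_ifs
  · exact (hF.pi η hη).measurableSet.diff (hF.pi (η + 1) (limit_add_one hlim hη)).measurableSet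
  · exact MeasurableSet.empty

end

theorem dich (hG : Stm_G) (hO : Stm_O) (hV : Stm_V) {X : Type} [TopologicalSpace X]
    [PolishSpace X] [MeasurableSpace X] [BorelSpace X] {ξ l : Ordinal.{0}} (hξ : 1 ≤ ξ)
    (hl : l < ω₁) (hlim : Order.IsSuccLimit l) {A B : Set X} (hA : MeasurableSet A)
    (hB : MeasurableSet B) {C : Set (ℕ → Bool)} (hC : GSep ξ l C Cᶜ) :
    GSep ξ l A B ∨
      ∃ φ : (ℕ → Bool) → X, Continuous φ ∧ (∀ x ∈ C, φ x ∈ B) ∧ ∀ x ∉ C, φ x ∈ A := by
  rcases isEmpty_or_nonempty X with hX | hX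
  · left
    refine ⟨fun _ => univ, ⟨rfl, fun _ _ _ _ => le_rfl, fun _ _ => pi_univ hξ, ?_⟩, ?_, ?_⟩
    · intro η _ _
      ext x
      exact hX.elim x
    · intro x; exact hX.elim x
    · rw [Set.disjoint_left]; intro x; exact hX.elim x
  · obtain ⟨π, hπ1, hπ2, hπ3⟩ := hO X
    have hCm : MeasurableSet C := hC.measurable hl hlim
    rcases hG (π ⁻¹' A) (π ⁻¹' B) C (hπ1.measurable hA) (hπ1.measurable hB) hCm with
      ⟨φ, hφ, h1, h2⟩ | ⟨ψ, hψ, h1, h2⟩
    · right
      exact ⟨fun x => π (φ x), hπ1.comp hφ, h1, h2⟩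
    · left
      apply hV X π hπ1 hπ2 hπ3 ξ hξ l hl hlim
      obtain ⟨F, hF, a1, a2⟩ := hC
      refine ⟨fun θ => ψ ⁻¹' F θ, hF.preimage hψ, fun y hy => a1 (h1 y hy), ?_⟩
      rw [Set.disjoint_left]
      intro y hy
      exact Set.disjoint_left.1 a2 (h2 y hy)

theorem approx_le {θ θ' η : Ordinal.{0}} (h : Lesssim θ θ') (h1 : 1 ≤ η) (h2 : η < ω₁)
    (h3 : θ' ≤ ω ^ η) : θ ≤ ω ^ η := h η h1 h2 h3

theorem alphaSet_le {X : Type} [TopologicalSpace X] {ξ : Ordinal.{0}} {f : X → ℝ}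
    {l : Ordinal.{0}} (h : alpha ξ f ≤ l) {p q : ℚ} (hpq : p < q) :
    alphaSet ξ {x | f x ≤ (p : ℝ)} {x | (q : ℝ) ≤ f x} ≤ l := by
  have h1 : alphaSet ξ {x | f x ≤ (p : ℝ)} {x | (q : ℝ) ≤ f x} ≤ alpha ξ f := by
    unfold alpha
    exact Ordinal.le_iSup (fun r : {r : ℚ × ℚ // r.1 < r.2} =>
      alphaSet ξ {x | f x ≤ (r.1.1 : ℝ)} {x | (r.1.2 : ℝ) ≤ f x}) ⟨(p, q), hpq⟩
  exact h1.trans h

theorem exists_sepLen {X : Type} [TopologicalSpace X] {ξ l : Ordinal.{0}} {A B : Set X}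
    (h : alphaSet ξ A B ≤ l) (hl : l < ω₁) : ∃ l' ≤ l, SepLen ξ A B l' := by
  have hne : ({l | l = ω₁ ∨ SepLen ξ A B l} : Set Ordinal.{0}).Nonempty := ⟨ω₁, Or.inl rfl⟩
  rcases csInf_mem hne with h1 | h1
  · exfalso
    have h2 : alphaSet ξ A B = ω₁ := h1
    rw [h2] at h
    exact absurd hl (not_lt.2 h)
  · exact ⟨_, h, h1⟩

/-- restriction of Baire class functions -/
theorem BC.comp {X Y : Type} [TopologicalSpace X] [TopologicalSpace Y] {ξ : Ordinal.{0}}
    {f : X → ℝ} (hf : BC ξ f) {g : Y → X} (hg : Continuous g) : BC ξ (fun y => f (g y)) := by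
  obtain ⟨⟨M, hM⟩, h⟩ := hf
  exact ⟨⟨M, fun y => hM _⟩, fun U hU => (h U hU).preimage hg⟩

theorem kstep {ξ η : Ordinal.{0}} (hξ : 2 ≤ ξ)
    {ρ : (X : Type) → [TopologicalSpace X] → (X → ℝ) → Ordinal.{0}} (hρ : IsRank ξ ρ)
    {X : Type} [TopologicalSpace X] [PolishSpace X] {f : X → ℝ} (hf : BC ξ f)
    (h1 : 1 ≤ η) (h2 : η < ω₁) (h3 : ρ X f ≤ ω ^ η) {φ : (ℕ → Bool) → X} (hφ : Continuous φ)
    {D : Set (ℕ → Bool)} {p q : ℝ} (hpq : p < q) (hD1 : ∀ x ∈ D, q ≤ f (φ x))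
    (hD2 : ∀ x ∉ D, f (φ x) ≤ p) : GSep ξ (ω ^ η) Dᶜ D ∧ GSep ξ (ω ^ η) D Dᶜ := by
  have hξ1 : 1 ≤ ξ := le_trans (by norm_num) hξ
  have hl := opow_lt h2
  have hlim := isSuccLimit_opow h1
  set K : Set X := range φ with hK
  have hKc : IsCompact K := isCompact_range hφ
  have hKcl : IsClosed K := hKc.isClosed
  have hKpi : Pi0 2 K := Sig.mono (Sig.opn _ hKcl.isOpen_compl) (by norm_num)
  have : PolishSpace K := hKcl.polishSpace
  have hfK : BC ξ (fun x : K => f x) := hf.comp continuous_subtype_val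
  let B : Set K := {x | q ≤ f x}
  have hval : ∀ x : K, f x ≤ p ∨ q ≤ f x := by
    rintro ⟨x, y, rfl⟩
    by_cases hy : y ∈ D
    · right; exact hD1 y hy
    · left; exact hD2 y hy
  have hBd : Del (ξ + 1) B := by
    obtain ⟨-, hm⟩ := hfK
    have e1 : B = (fun x : K => f x) ⁻¹' Ioi ((p + q) / 2) := by
      ext x
      simp only [B, mem_ofPred_eq, mem_preimage, mem_Ioi]
      constructor
      · intro h; linarith
      · intro h
        rcases hval x with h' | h'
        · linarith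
        · exact h'
    have e2 : Bᶜ = (fun x : K => f x) ⁻¹' Iio ((p + q) / 2) := by
      ext x
      simp only [B, mem_compl_iff, mem_ofPred_eq, mem_preimage, mem_Iio, not_le]
      constructor
      · intro h
        rcases hval x with h' | h'
        · linarith
        · linarith
      · intro h; linarith
    refine ⟨?_, ?_⟩
    · rw [e1]; exact hm _ isOpen_Ioi
    · unfold Pi0; rw [e2]; exact hm _ isOpen_Iio
  let h : ℝ → ℝ := fun t => max 0 (min 1 ((t - p) / (q - p)))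
  have hLip : ∃ L, LipschitzWith L h := by
    have a1 : LipschitzWith (Real.toNNReal (1 / (q - p))) (fun t : ℝ => (t - p) / (q - p)) := by
      apply LipschitzWith.of_dist_le_mul
      intro x y
      rw [Real.coe_toNNReal _ (by have : 0 < q - p := by linarith
                                  positivity), Real.dist_eq, Real.dist_eq]
      have : (x - p) / (q - p) - (y - p) / (q - p) = 1 / (q - p) * (x - y) := by ring
      rw [this, abs_mul, abs_of_pos (by have : 0 < q - p := by linarith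
                                        positivity)]
    refine ⟨_, (a1.const_min 1).const_max 0⟩
  have hcomp : (fun x : K => h (f x)) = chi B := by
    have hqp : 0 < q - p := by linarith
    ext x
    unfold chi
    rcases hval x with h' | h'
    · have hx : x ∉ B := by
        intro hx
        have : q ≤ f x := hx
        linarith
      rw [indicator_of_notMem hx]
      have : (f x - p) / (q - p) ≤ 0 := div_nonpos_of_nonpos_of_nonneg (by linarith) hqp.le
      simp only [h]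
      rw [max_eq_left]
      exact (min_le_right _ _).trans this
    · have hx : x ∈ B := h'
      rw [indicator_of_mem hx]
      have : 1 ≤ (f x - p) / (q - p) := by
        rw [le_div_iff₀ hqp]; linarith
      simp only [h]
      rw [min_eq_left this]
      simp
  have r1 : ρ K (fun x : K => f x) ≤ ω ^ η := hρ.p5 X f K hf hKpi η h1 h2 h3
  have r2 : ρ K (chi B) ≤ ω ^ η := by
    rw [← hcomp]
    exact hρ.p4 K (fun x : K => f x) h hfK hLip η h1 h2 r1
  have r3 : alpha ξ (chi B) ≤ ω ^ η := (hρ.p1 K B hBd).2 η h1 h2 r2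
  have r4 := alphaSet_le r3 (show (1/3 : ℚ) < 2/3 by norm_num)
  have e1 : {x | chi B x ≤ ((1/3 : ℚ) : ℝ)} = Bᶜ := by
    ext x
    simp only [mem_ofPred_eq, mem_compl_iff, chi]
    by_cases hx : x ∈ B
    · rw [indicator_of_mem hx]
      simp only [Pi.one_apply, hx, not_true, iff_false, not_le]
      norm_num
    · rw [indicator_of_notMem hx]
      simp only [hx, not_false_iff, iff_true]
      norm_num
  have e2 : {x | ((2/3 : ℚ) : ℝ) ≤ chi B x} = B := by
    ext x
    simp only [mem_ofPred_eq, chi]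
    by_cases hx : x ∈ B
    · rw [indicator_of_mem hx]
      simp only [Pi.one_apply, hx, iff_true]
      norm_num
    · rw [indicator_of_notMem hx]
      simp only [hx, iff_false, not_le]
      norm_num
  rw [e1, e2] at r4
  obtain ⟨l', hl', hsep⟩ := exists_sepLen r4 hl
  obtain ⟨F, hF, hesc, hFA, hFB⟩ := hsep.toSeq0 hl' hξ1 hlim
  let φ' : (ℕ → Bool) → K := fun y => ⟨φ y, mem_range_self y⟩
  have hφ' : Continuous φ' := hφ.subtype_mk _
  have hmem : ∀ y, φ' y ∈ B ↔ y ∈ D := by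
    intro y
    constructor
    · intro hy
      by_contra hc
      have h5 := hD2 y hc
      have h6 : q ≤ f (φ y) := hy
      linarith
    · intro hy; exact hD1 y hy
  have hF' : Seq0 ξ (ω ^ η) (fun θ => φ' ⁻¹' F θ) := hF.preimage hφ'
  have hd : ∀ y, y ∈ DiffSet (ω ^ η) (fun θ => φ' ⁻¹' F θ) ↔ y ∉ D := by
    intro y
    rw [diffSet_preimage, mem_preimage, ← hmem y]
    constructor
    · intro h5 h6
      exact Set.disjoint_left.1 hFB h6 h5
    · intro h5
      exact hFA h5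
  refine ⟨⟨_, hF', fun y hy => (hd y).2 hy, ?_⟩, ⟨_, hF'.shf_seq hξ1 hl, ?_, ?_⟩⟩
  · rw [Set.disjoint_left]
    intro y hy h5
    exact (hd y).1 h5 hy
  · intro y hy
    rw [((hF'.shf_spec hξ1 hl hlim (hesc (φ' y))).2), hd y]
    exact fun h5 => h5 hy
  · rw [Set.disjoint_left]
    intro y hy h5
    rw [((hF'.shf_spec hξ1 hl hlim (hesc (φ' y))).2), hd y] at h5
    exact h5 hy

theorem two_sep (hG : Stm_G) (hO : Stm_O) (hV : Stm_V) (hH : Stm_H) {ξ η : Ordinal.{0}}
    (hξ : 2 ≤ ξ) (hξ2 : ξ < ω₁)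
    {ρ : (X : Type) → [TopologicalSpace X] → (X → ℝ) → Ordinal.{0}} (hρ : IsRank ξ ρ)
    {X : Type} [TopologicalSpace X] [PolishSpace X] {f : X → ℝ} (hf : BC ξ f)
    (h1 : 1 ≤ η) (h2 : η < ω₁) (h3 : ρ X f ≤ ω ^ η) {p q : ℝ} (hpq : p < q) :
    GSep ξ (ω ^ η) {x | f x ≤ p} {x | q ≤ f x} ∧
      GSep ξ (ω ^ η) {x | q ≤ f x} {x | f x ≤ p} := by
  have hξ1 : 1 ≤ ξ := le_trans (by norm_num) hξ
  have hl := opow_lt h2
  have hlim := isSuccLimit_opow h1
  obtain ⟨C, hC1, hC2⟩ := hH ξ hξ1 hξ2 (ω ^ η) hl hlim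
  borelize X
  have hm : ∀ U : Set ℝ, IsOpen U → MeasurableSet (f ⁻¹' U) := fun U hU =>
    (hf.2 U hU).measurableSet
  have hA : MeasurableSet {x | f x ≤ p} := by
    have := (hm (Ioi p) isOpen_Ioi).compl
    convert this using 1
    ext x; simp
  have hB : MeasurableSet {x | q ≤ f x} := by
    have := (hm (Iio q) isOpen_Iio).compl
    convert this using 1
    ext x; simp
  refine ⟨?_, ?_⟩
  · rcases dich hG hO hV hξ1 hl hlim hA hB hC1 with h | ⟨φ, hφ, a1, a2⟩
    · exact h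
    · exact absurd (kstep hξ hρ hf h1 h2 h3 hφ hpq a1 a2).1 hC2
  · rcases dich hG hO hV hξ1 hl hlim hB hA hC1 with h | ⟨φ, hφ, a1, a2⟩
    · exact h
    · have := (kstep hξ hρ hf h1 h2 h3 hφ (D := Cᶜ) hpq (fun x hx => a2 x hx)
        (fun x hx => a1 x (not_not.1 hx))).2
      rw [compl_compl] at this
      exact absurd this hC2

theorem lower (hG : Stm_G) (hO : Stm_O) (hV : Stm_V) (hH : Stm_H) {ξ η : Ordinal.{0}}
    (hξ : 2 ≤ ξ) (hξ2 : ξ < ω₁)
    {ρ : (X : Type) → [TopologicalSpace X] → (X → ℝ) → Ordinal.{0}} (hρ : IsRank ξ ρ)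
    {X : Type} [TopologicalSpace X] [PolishSpace X] {f : X → ℝ} (hf : BC ξ f)
    (h1 : 1 ≤ η) (h2 : η < ω₁) (h3 : ρ X f ≤ ω ^ η) : alpha ξ f ≤ ω ^ η := by
  have hξ1 : 1 ≤ ξ := le_trans (by norm_num) hξ
  have hl := opow_lt h2
  have hlim := isSuccLimit_opow h1
  unfold alpha
  apply Ordinal.iSup_le
  rintro ⟨⟨p, q⟩, hpq⟩
  simp only at hpq ⊢
  have hpq' : (p : ℝ) < q := by exact_mod_cast hpq
  -- two disjoint intervals
  obtain ⟨m1, hm1, hm1'⟩ := exists_between hpq'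
  obtain ⟨m2, hm2, hm2'⟩ := exists_between hm1'
  have key : SepLen ξ {x | f x ≤ (p : ℝ)} {x | (q : ℝ) ≤ f x} (ω ^ η) := by
    obtain ⟨⟨F1, hF1, a1, b1⟩, ⟨F2, hF2, a2, b2⟩⟩ :=
      two_sep hG hO hV hH hξ hξ2 hρ hf h1 h2 h3 hm1
    obtain ⟨⟨F3, hF3, a3, b3⟩, ⟨F4, hF4, a4, b4⟩⟩ :=
      two_sep hG hO hV hH hξ hξ2 hρ hf h1 h2 h3 hm2'
    set l : Ordinal.{0} := ω ^ η with hldef
    have hl0 : 0 < l := hlim.bot_lt
    have : Nonempty (Set.Iio l) := ⟨⟨0, hl0⟩⟩
    have : Countable (Set.Iio l) := (countable_Iio hl).to_subtype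
    let FF : Fin 4 → Ordinal.{0} → Set X := ![F1, F2, F3, F4]
    let GG : Fin 4 → Ordinal.{0} → Set X := ![F1, shf F2, F3, shf F4]
    have hFF : ∀ i, Seq0 ξ l (FF i) := by
      intro i
      fin_cases i
      · exact hF1
      · exact hF2
      · exact hF3
      · exact hF4
    have hGG : ∀ i, Seq0 ξ l (GG i) := by
      intro i
      fin_cases i
      · exact hF1
      · exact hF2.shf_seq hξ1 hl
      · exact hF3
      · exact hF4.shf_seq hξ1 hl
    refine glue hξ hlim (ι := Fin 4 × Set.Iio l) (fun i => (FF i.1 i.2)ᶜ)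
      (fun i => (hFF i.1).pi i.2 i.2.2) ?_ (fun i => GG i.1) (fun i => hGG i.1) ?_ ?_ ?_
    · intro x
      by_contra hc
      push Not at hc
      have hc' : ∀ i, ∀ θ < l, x ∈ FF i θ := by
        intro i θ hθ
        by_contra hcc
        exact hc (i, ⟨θ, hθ⟩) hcc
      have c1 : ¬ f x ≤ p := by
        intro hx
        obtain ⟨η', h5, -, -, h6⟩ := a1 hx
        exact h6 (hc' 0 _ (limit_add_one hlim h5))
      have c2 : ¬ m1 ≤ f x := by
        intro hx
        obtain ⟨η', h5, -, -, h6⟩ := a2 hx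
        exact h6 (hc' 1 _ (limit_add_one hlim h5))
      have c3 : ¬ f x ≤ m2 := by
        intro hx
        obtain ⟨η', h5, -, -, h6⟩ := a3 hx
        exact h6 (hc' 2 _ (limit_add_one hlim h5))
      linarith
    · rintro ⟨i, θ⟩ x hx
      have hx' : ∃ θ' < l, x ∉ FF i θ' := ⟨θ, θ.2, hx⟩
      fin_cases i
      · exact hx'
      · exact (hF2.shf_spec hξ1 hl hlim hx').1
      · exact hx'
      · exact (hF4.shf_spec hξ1 hl hlim hx').1
    · rintro ⟨i, θ⟩ x hx hA
      have hx' : ∃ θ' < l, x ∉ FF i θ' := ⟨θ, θ.2, hx⟩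
      have hA' : f x ≤ p := hA
      fin_cases i
      · exact a1 hA'
      · refine (hF2.shf_spec hξ1 hl hlim hx').2.2 ?_
        exact Set.disjoint_left.1 b2 hA'
      · refine a3 ?_
        show f x ≤ m2
        linarith
      · refine (hF4.shf_spec hξ1 hl hlim hx').2.2 ?_
        refine Set.disjoint_left.1 b4 ?_
        show f x ≤ m2
        linarith
    · rintro ⟨i, θ⟩ x hx hB
      have hx' : ∃ θ' < l, x ∉ FF i θ' := ⟨θ, θ.2, hx⟩
      have hB' : (q : ℝ) ≤ f x := hB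
      fin_cases i
      · refine Set.disjoint_left.1 b1 ?_
        show m1 ≤ f x
        linarith
      · intro hd
        refine (hF2.shf_spec hξ1 hl hlim hx').2.1 hd ?_
        refine a2 ?_
        show m1 ≤ f x
        linarith
      · exact Set.disjoint_left.1 b3 hB'
      · intro hd
        exact (hF4.shf_spec hξ1 hl hlim hx').2.1 hd (a4 hB')
  exact csInf_le' (Or.inr key)

/-- The main theorem from the pieces. -/
theorem main_of_pieces (hG : Stm_G) (hO : Stm_O) (hV : Stm_V) (hH : Stm_H) (hU : Stm_U) :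
    Stm_Main := by
  intro ξ hξ hξ2 ρ hρ X _ _ f hf
  obtain ⟨η, h1, h2, h3⟩ := exists_le_opow (hρ.lt X f hf)
  refine ⟨?_, ?_, ?_⟩
  · exact (lower hG hO hV hH hξ hξ2 hρ hf h1 h2 h3).trans_lt (opow_lt h2)
  · intro η' h1' h2' h3'
    exact hU ξ hξ hξ2 ρ hρ X f hf η' h1' h2' h3'
  · intro η' h1' h2' h3'
    exact lower hG hO hV hH hξ hξ2 hρ hf h1' h2' h3'

end Pool.Agent.R591.BR
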