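import Mathlib
import Pool.Agent.R591.BR.Defs

set_option autoImplicit false

namespace Pool.Agent.R591.BR.O

open Set Topology Filter Metric

theorem exists_scheme (X : Type) [MetricSpace X] [SecondCountableTopology X] [Nonempty X] :
    ∃ (T : Set (Set X)) (e : ℕ → T → ℕ → T) (r : T), (r : Set X) = univ ∧
      (∀ s : T, IsOpen (s : Set X)) ∧ (∀ s : T, (s : Set X).Nonempty) ∧
      (∀ n (s : T) j, closure (e n s j : Set X) ⊆ (s : Set X)) ∧
      (∀ n (s : T) j, ∃ c : X, (e n s j : Set X) ⊆ ball c ((1 / 2 : ℝ) ^ n)) ∧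
      (∀ n (s : T) (x : X), x ∈ (s : Set X) → ∃ j, x ∈ (e n s j : Set X)) := by
  obtain ⟨b, hbc, hbe, hb⟩ := TopologicalSpace.exists_countable_basis X
  let T : Set (Set X) := insert univ b
  have hTc : T.Countable := hbc.insert _
  have hTo : ∀ s : T, IsOpen (s : Set X) := by
    rintro ⟨s, hs⟩
    rcases hs with rfl | hs
    · exact isOpen_univ
    · exact hb.isOpen hs
  have hTn : ∀ s : T, (s : Set X).Nonempty := by
    rintro ⟨s, hs⟩
    rcases hs with rfl | hs
    · exact univ_nonempty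
    · rw [nonempty_iff_ne_empty]
      rintro rfl
      exact hbe hs
  let L : ℕ → T → Set T := fun n s => {t | closure (t : Set X) ⊆ (s : Set X) ∧
    ∃ c : X, (t : Set X) ⊆ ball c ((1 / 2 : ℝ) ^ n)}
  have hL : ∀ n (s : T) (x : X), x ∈ (s : Set X) → ∃ t ∈ L n s, x ∈ (t : Set X) := by
    intro n s x hx
    have h1 : (s : Set X) ∩ ball x ((1 / 2 : ℝ) ^ n) ∈ 𝓝 x :=
      inter_mem ((hTo s).mem_nhds hx) (ball_mem_nhds _ (by positivity))
    obtain ⟨V, hV, hVc, hVs⟩ := exists_mem_nhds_isClosed_subset h1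
    obtain ⟨t, ht, hxt, htV⟩ := hb.mem_nhds_iff.1 hV
    refine ⟨⟨t, Or.inr ht⟩, ⟨?_, x, ?_⟩, hxt⟩
    · exact (closure_minimal htV hVc).trans (hVs.trans inter_subset_left)
    · exact htV.trans (hVs.trans inter_subset_right)
  have hcount : Countable T := hTc.to_subtype
  have hsurj : ∀ n (s : T), ∃ f : ℕ → T, Set.range f = L n s := by
    intro n s
    obtain ⟨x, hx⟩ := hTn s
    obtain ⟨t, ht, -⟩ := hL n s x hx
    obtain ⟨f, hf⟩ := (L n s).to_countable.exists_eq_range ⟨t, ht⟩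
    exact ⟨f, hf.symm⟩
  choose e he using hsurj
  have hmem : ∀ n (s : T) j, e n s j ∈ L n s := by
    intro n s j
    rw [← he n s]; exact mem_range_self j
  refine ⟨T, e, ⟨univ, Or.inl rfl⟩, rfl, hTo, hTn, fun n s j => (hmem n s j).1,
    fun n s j => (hmem n s j).2, ?_⟩
  intro n s x hx
  obtain ⟨t, ht, hxt⟩ := hL n s x hx
  rw [← he n s] at ht
  obtain ⟨j, rfl⟩ := ht
  exact ⟨j, hxt⟩

theorem open_surj (X : Type) [MetricSpace X] [CompleteSpace X] [SecondCountableTopology X]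
    [Nonempty X] :
    ∃ π : (ℕ → ℕ) → X, Continuous π ∧ IsOpenMap π ∧ Function.Surjective π := by
  obtain ⟨T, e, r, hr, hTo, hTn, hcl, hball, hcov⟩ := exists_scheme X
  let z : (ℕ → ℕ) → ℕ → T := fun a => Nat.rec r (fun n s => e n s (a n))
  have z0 : ∀ a, z a 0 = r := fun a => rfl
  have zs : ∀ a n, z a (n + 1) = e n (z a n) (a n) := fun a n => rfl
  have hnest : ∀ (a : ℕ → ℕ) (n : ℕ), closure (z a (n + 1)).1 ⊆ (z a n).1 := fun a n => by
    rw [zs]; exact hcl n _ _
  have hanti : ∀ a : ℕ → ℕ, Antitone (fun n => (z a n).1) := fun a =>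
    antitone_nat_of_succ_le (fun n => subset_closure.trans (hnest a n))
  have hdist : ∀ (a : ℕ → ℕ) (n : ℕ) (x y : X), x ∈ (z a (n + 1)).1 → y ∈ (z a (n + 1)).1 →
      dist x y ≤ 2 * (1 / 2 : ℝ) ^ n := by
    intro a n x y hx hy
    obtain ⟨c, hc⟩ := hball n (z a n) (a n)
    rw [← zs] at hc
    have h1 := hc hx
    have h2 := hc hy
    rw [mem_ball] at h1 h2
    have h3 := dist_triangle_right x y c
    linarith
  have hlim0 : Tendsto (fun n : ℕ => 2 * (1 / 2 : ℝ) ^ n) atTop (𝓝 0) := by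
    have := (tendsto_pow_atTop_nhds_zero_of_lt_one (r := (1 / 2 : ℝ)) (by norm_num)
      (by norm_num)).const_mul 2
    simpa using this
  have hex : ∀ a : ℕ → ℕ, ∃ x : X, ∀ n, x ∈ (z a n).1 := by
    intro a
    choose p hp using fun n => hTn (z a (n + 1))
    have hpm : ∀ n m, n ≤ m → p m ∈ (z a (n + 1)).1 := fun n m hnm =>
      hanti a (Nat.succ_le_succ hnm) (hp m)
    have hcau : CauchySeq p := by
      refine cauchySeq_of_le_tendsto_0 (fun n : ℕ => 2 * (1 / 2 : ℝ) ^ n) ?_ hlim0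
      intro n m N hn hm
      exact hdist a N _ _ (hpm N n hn) (hpm N m hm)
    obtain ⟨x, hx⟩ := cauchySeq_tendsto_of_complete hcau
    refine ⟨x, fun n => hnest a n ?_⟩
    exact mem_closure_of_tendsto hx (eventually_atTop.2 ⟨n, fun m hm => hpm n m hm⟩)
  choose π hπ using hex
  have huniq : ∀ (a : ℕ → ℕ) (x : X), (∀ n, x ∈ (z a n).1) → π a = x := by
    intro a x hx
    have h1 : ∀ n : ℕ, dist (π a) x ≤ 2 * (1 / 2 : ℝ) ^ n := fun n =>
      hdist a n _ _ (hπ a (n + 1)) (hx (n + 1))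
    have h2 : dist (π a) x ≤ 0 := ge_of_tendsto' hlim0 h1
    exact dist_le_zero.1 h2
  have hloc : ∀ (a a' : ℕ → ℕ) (n : ℕ), (∀ i < n, a' i = a i) → z a' n = z a n := by
    intro a a' n
    induction n with
    | zero => intro _; rfl
    | succ n ih =>
      intro h
      rw [zs, zs, ih (fun i hi => h i (Nat.lt_succ_of_lt hi)), h n (Nat.lt_succ_self n)]
  have hkey : ∀ (a : ℕ → ℕ) (n : ℕ) (x : X), x ∈ (z a n).1 → ∃ a', (∀ i < n, a' i = a i) ∧ π a' = x := by
    intro a n x hx
    have hJ : ∀ (n : ℕ) (s : T), ∃ j, x ∈ (s : Set X) → x ∈ (e n s j : Set X) := by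
      intro n s
      by_cases h : x ∈ (s : Set X)
      · obtain ⟨j, hj⟩ := hcov n s x h
        exact ⟨j, fun _ => hj⟩
      · exact ⟨0, fun h' => absurd h' h⟩
    choose J hJ using hJ
    let t : ℕ → T := Nat.rec r (fun i s => e i s (if i < n then a i else J i s))
    let a' : ℕ → ℕ := fun i => if i < n then a i else J i (t i)
    have ht : ∀ i, z a' i = t i := by
      intro i
      induction i with
      | zero => rfl
      | succ i ih => rw [zs, ih]
    have ha' : ∀ i < n, a' i = a i := fun i hi => if_pos hi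
    refine ⟨a', ha', huniq a' x ?_⟩
    have hge : ∀ k, x ∈ (z a' (n + k)).1 := by
      intro k
      induction k with
      | zero =>
        rw [Nat.add_zero, hloc a a' n ha']; exact hx
      | succ k ih =>
        rw [← Nat.add_assoc, zs]
        have h1 : a' (n + k) = J (n + k) (z a' (n + k)) := by
          rw [ht]; exact if_neg (by omega)
        rw [h1]
        exact hJ _ _ ih
    intro m
    rcases le_total n m with h | h
    · obtain ⟨k, rfl⟩ := Nat.exists_eq_add_of_le h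
      exact hge k
    · exact hanti a' h (by simpa using hge 0)
  have himg : ∀ (a : ℕ → ℕ) (n : ℕ), π '' (PiNat.cylinder a n) = (z a n).1 := by
    intro a n
    apply Subset.antisymm
    · rintro _ ⟨a', ha', rfl⟩
      rw [← hloc a a' n (fun i hi => ha' i hi)]
      exact hπ a' n
    · intro x hx
      obtain ⟨a', ha', rfl⟩ := hkey a n x hx
      exact ⟨a', fun i hi => ha' i hi, rfl⟩
  refine ⟨π, ?_, ?_, ?_⟩
  · rw [continuous_iff_continuousAt]
    intro a
    rw [ContinuousAt, Metric.tendsto_nhds]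
    intro ε hε
    obtain ⟨n, hn⟩ := (hlim0.eventually (gt_mem_nhds hε)).exists
    filter_upwards [(PiNat.isOpen_cylinder (fun _ => ℕ) a (n + 1)).mem_nhds
      (PiNat.self_mem_cylinder a (n + 1))] with a' ha'
    refine lt_of_le_of_lt (hdist a n _ _ ?_ (hπ a (n + 1))) hn
    rw [← hloc a a' (n + 1) (fun i hi => ha' i hi)]
    exact hπ a' (n + 1)
  · rw [(PiNat.isTopologicalBasis_cylinders (fun _ : ℕ => ℕ)).isOpenMap_iff]
    rintro _ ⟨a, n, rfl⟩
    rw [himg]
    exact hTo _
  · intro x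
    obtain ⟨a, -, ha⟩ := hkey (fun _ => 0) 0 x (by rw [z0, hr]; trivial)
    exact ⟨a, ha⟩

theorem main_O : Stm_O := by
  intro X _ _ _
  let _ := TopologicalSpace.upgradeIsCompletelyMetrizable X
  exact open_surj X

end Pool.Agent.R591.BR.O
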