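import Pool.Agent.R591.BR.Basic

/-!
# Reduction, gluing and shifting of transfinite sequences
-/

set_option autoImplicit false

namespace Pool.Agent.R591.BR

open Set Topology TopologicalSpace
open scoped Ordinal

theorem main_R : Stm_R := by
  intro X _ _ ξ hξ S hS hU
  have h1 : 1 < ξ := lt_of_lt_of_le (by norm_num) hξ
  choose η B h1' h2 h3 h4 using fun n => (hS n).repr h1
  have hB : ∀ n k, Del ξ (B n k) := fun n k => Pi0.del_succ (h3 n k) (h2 n k)
  let Q : ℕ → Set X := fun m => B m.unpair.1 m.unpair.2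
  have hQ : ∀ m, Del ξ (Q m) := fun m => hB _ _
  have hI : ∀ m, Del ξ {x | ∀ j < m, x ∉ Q j} := by
    intro m
    induction m with
    | zero =>
      have : {x : X | ∀ j < 0, x ∉ Q j} = univ := by
        ext x; simp
      rw [this]
      exact ⟨sig_univ h1.le, pi_univ h1.le⟩
    | succ m ih =>
      have : {x : X | ∀ j < m + 1, x ∉ Q j} = {x | ∀ j < m, x ∉ Q j} ∩ (Q m)ᶜ := by
        ext x
        constructor
        · intro h
          exact ⟨fun j hj => h j (by omega), h m (by omega)⟩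
        · rintro ⟨h, h'⟩ j hj
          rcases Nat.lt_succ_iff_lt_or_eq.1 hj with h5 | rfl
          · exact h j h5
          · exact h'
      rw [this]
      exact ih.inter (hQ m).compl
  let R : ℕ → Set X := fun m => Q m ∩ {x | ∀ j < m, x ∉ Q j}
  have hR : ∀ m, Del ξ (R m) := fun m => (hQ m).inter (hI m)
  have hRd : ∀ m m' x, x ∈ R m → x ∈ R m' → m = m' := by
    intro m m' x hx hx'
    rcases lt_trichotomy m m' with h | h | h
    · exact absurd hx.1 (hx'.2 m h)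
    · exact h
    · exact absurd hx'.1 (hx.2 m' h)
  have hRU : ∀ x, ∃ m, x ∈ R m := by
    intro x
    have hx : x ∈ ⋃ n, S n := by rw [hU]; trivial
    obtain ⟨n, hn⟩ := mem_iUnion.1 hx
    rw [h4 n] at hn
    obtain ⟨k, hk⟩ := mem_iUnion.1 hn
    have : ∃ m, x ∈ Q m := ⟨Nat.pair n k, by simpa [Q] using hk⟩
    classical
    refine ⟨Nat.find this, Nat.find_spec this, fun j hj => Nat.find_min this hj⟩
  refine ⟨fun n => ⋃ m, ⋃ (_ : m.unpair.1 = n), R m, ?_, ?_, ?_, ?_⟩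
  · intro n x hx
    simp only [mem_iUnion] at hx
    obtain ⟨m, hm, hx⟩ := hx
    rw [h4 n, mem_iUnion]
    refine ⟨m.unpair.2, ?_⟩
    rw [← hm]
    exact hx.1
  · intro n
    refine ⟨sig_iUnion h1.le fun m => sig_iUnion h1.le fun _ => (hR m).1, ?_⟩
    have : (⋃ m, ⋃ (_ : m.unpair.1 = n), R m)ᶜ = ⋃ m, ⋃ (_ : m.unpair.1 ≠ n), R m := by
      ext x
      simp only [mem_compl_iff, mem_iUnion, not_exists, exists_prop, not_and]
      constructor
      · intro h
        obtain ⟨m, hm⟩ := hRU x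
        exact ⟨m, fun h' => h m h' hm, hm⟩
      · rintro ⟨m, hm, hx⟩ m' hm' hx'
        rw [hRd _ _ x hx hx'] at hm
        exact hm hm'
    unfold Pi0
    rw [this]
    exact sig_iUnion h1.le fun m => sig_iUnion h1.le fun _ => (hR m).1
  · intro n n' hn
    rw [Set.disjoint_left]
    intro x hx hx'
    simp only [mem_iUnion] at hx hx'
    obtain ⟨m, hm, hx⟩ := hx
    obtain ⟨m', hm', hx'⟩ := hx'
    apply hn
    rw [← hm, ← hm', hRd _ _ x hx hx']
  · rw [eq_univ_iff_forall]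
    intro x
    obtain ⟨m, hm⟩ := hRU x
    simp only [mem_iUnion]
    exact ⟨_, m, rfl, hm⟩

section

variable {X : Type} [TopologicalSpace X] {ξ l : Ordinal.{0}} {F : Ordinal.{0} → Set X}

theorem Seq0.exit (hF : Seq0 ξ l F) {x : X} (h : ∃ θ < l, x ∉ F θ) :
    ∃ η, η + 1 < l ∧ x ∈ F η ∧ x ∉ F (η + 1) := by
  obtain ⟨τ, ⟨hτl, hτ⟩, hmin⟩ := WellFounded.has_min (wellFounded_lt (α := Ordinal.{0}))
    {θ | θ < l ∧ x ∉ F θ} h
  have hmin' : ∀ θ < τ, x ∈ F θ := by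
    intro θ hθ
    by_contra hc
    exact hmin θ ⟨hθ.trans hτl, hc⟩ hθ
  rcases Ordinal.zero_or_succ_or_isSuccLimit τ with h0 | ⟨a, ha⟩ | hl
  · rw [h0, hF.zero] at hτ
    exact absurd (mem_univ x) hτ
  · have ha' : τ = a + 1 := by rw [← ha, Order.succ_eq_add_one]
    subst ha'
    exact ⟨a, hτl, hmin' a (Order.lt_add_one_iff.2 le_rfl), hτ⟩
  · exfalso
    apply hτ
    rw [hF.lim τ hτl hl]
    exact mem_iInter₂.2 hmin'

theorem Seq0.exit_unique (hF : Seq0 ξ l F) {x : X} {η η' : Ordinal.{0}} (h1 : η + 1 < l)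
    (h2 : η' + 1 < l) (h3 : x ∈ F η) (h4 : x ∉ F (η + 1)) (h5 : x ∈ F η') (h6 : x ∉ F (η' + 1)) :
    η = η' := by
  rcases lt_trichotomy η η' with h | h | h
  · exact absurd (hF.anti _ _ (Order.add_one_le_iff.2 h)
      ((Order.lt_add_one_iff.2 le_rfl).trans h2) h5) h4
  · exact h
  · exact absurd (hF.anti _ _ (Order.add_one_le_iff.2 h)
      ((Order.lt_add_one_iff.2 le_rfl).trans h1) h3) h6

theorem limit_add_one (hl : Order.IsSuccLimit l) {η : Ordinal.{0}} (h : η < l) : η + 1 < l :=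
  hl.add_one_lt h

theorem Seq0.mem_diff_iff (hF : Seq0 ξ l F) (hl : Order.IsSuccLimit l) {x : X}
    {η : Ordinal.{0}} (h1 : η + 1 < l)
    (h3 : x ∈ F η) (h4 : x ∉ F (η + 1)) : x ∈ DiffSet l F ↔ Ev η := by
  constructor
  · rintro ⟨η', h5, h6, h7, h8⟩
    rw [hF.exit_unique h1 (limit_add_one hl h5) h3 h4 h7 h8]
    exact h6
  · intro h
    exact ⟨η, (Order.lt_add_one_iff.2 le_rfl).trans h1, h, h3, h4⟩

theorem Seq0.escape_of_mem (hl : Order.IsSuccLimit l) {x : X} (h : x ∈ DiffSet l F) :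
    ∃ θ < l, x ∉ F θ := by
  obtain ⟨η, h1, -, -, h2⟩ := h
  exact ⟨η + 1, limit_add_one hl h1, h2⟩

/-- The shifted sequence. -/
def shf (F : Ordinal.{0} → Set X) : Ordinal.{0} → Set X := fun θ => ⋂ θ', ⋂ (_ : θ' < θ), F θ'

theorem Seq0.shf_succ (hF : Seq0 ξ l F) {θ : Ordinal.{0}} (h : θ < l) :
    shf F (θ + 1) = F θ := by
  unfold shf
  ext x
  simp only [mem_iInter]
  constructor
  · intro hx
    exact hx θ (Order.lt_add_one_iff.2 le_rfl)
  · intro hx θ' hθ'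
    exact hF.anti _ _ (Order.lt_add_one_iff.1 hθ') h hx

theorem Seq0.shf_seq (hF : Seq0 ξ l F) (hξ : 1 ≤ ξ) (hl1 : l < ω₁) : Seq0 ξ l (shf F) where
  zero := by
    unfold shf
    ext x; simp
  anti := by
    intro θ η h _ x hx
    unfold shf at hx ⊢
    simp only [mem_iInter] at hx ⊢
    exact fun θ' h' => hx θ' (h'.trans_le h)
  pi := by
    intro η hη
    exact pi_iInter_lt hξ (hη.trans hl1) fun θ hθ => hF.pi θ (hθ.trans hη)
  lim := by
    intro η hη hlim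
    unfold shf
    ext x
    simp only [mem_iInter]
    constructor
    · intro hx θ hθ θ' hθ'
      exact hx θ' (hθ'.trans hθ)
    · intro hx θ hθ
      exact hx (θ + 1) (limit_add_one hlim hθ) θ (Order.lt_add_one_iff.2 le_rfl)

theorem Seq0.shf_spec (hF : Seq0 ξ l F) (hξ : 1 ≤ ξ) (hl1 : l < ω₁) (hl : Order.IsSuccLimit l)
    {x : X} (h : ∃ θ < l, x ∉ F θ) :
    (∃ θ < l, x ∉ shf F θ) ∧ (x ∈ DiffSet l (shf F) ↔ x ∉ DiffSet l F) := by
  obtain ⟨η, h1, h2, h3⟩ := hF.exit h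
  have h4 : x ∈ shf F (η + 1) := by
    rw [hF.shf_succ ((Order.lt_add_one_iff.2 le_rfl).trans h1)]; exact h2
  have h5 : x ∉ shf F (η + 1 + 1) := by
    rw [hF.shf_succ h1]; exact h3
  have h6 := limit_add_one hl h1
  refine ⟨⟨_, h6, h5⟩, ?_⟩
  rw [(hF.shf_seq hξ hl1).mem_diff_iff hl h6 h4 h5, hF.mem_diff_iff hl h1 h2 h3]
  exact ev_succ

theorem Seq0.preimage {Y : Type} [TopologicalSpace Y] {g : Y → X} (hF : Seq0 ξ l F)
    (hg : Continuous g) : Seq0 ξ l (fun θ => g ⁻¹' F θ) where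
  zero := by rw [hF.zero]; rfl
  anti := fun θ η h1 h2 => preimage_mono (hF.anti θ η h1 h2)
  pi := fun η h => (hF.pi η h).preimage hg
  lim := fun η h h' => by rw [hF.lim η h h', preimage_iInter₂]

theorem diffSet_preimage {Y : Type} (g : Y → X) :
    DiffSet l (fun θ => g ⁻¹' F θ) = g ⁻¹' DiffSet l F := rfl

/-- From a sequence in the sense of the problem to a sequence which all points leave. -/
theorem SepLen.toSeq0 {A B : Set X} {l' : Ordinal.{0}} (h : SepLen ξ A B l') (hl' : l' ≤ l)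
    (hξ : 1 ≤ ξ) (hl : Order.IsSuccLimit l) :
    ∃ F, Seq0 ξ l F ∧ (∀ x, ∃ θ < l, x ∉ F θ) ∧ A ⊆ DiffSet l F ∧ Disjoint B (DiffSet l F) := by
  obtain ⟨F, hF, hA, hB⟩ := h
  have hD : DiffSet l' F = DiffSet l F := by
    ext x
    constructor
    · rintro ⟨η, h1, h2⟩
      exact ⟨η, h1.trans_le hl', h2⟩
    · rintro ⟨η, h1, h2, h3, h4⟩
      refine ⟨η, ?_, h2, h3, h4⟩
      by_contra hc
      rw [hF.out η (not_lt.1 hc)] at h3
      exact h3
  refine ⟨F, ⟨hF.zero, fun θ η h _ => hF.anti θ η h, ?_, ?_⟩, ?_, hD ▸ hA, hD ▸ hB⟩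
  · intro η _
    by_cases h : η < l'
    · exact hF.pi η h
    · rw [hF.out η (not_lt.1 h)]
      exact pi_empty hξ
  · intro η _ hlim
    rcases lt_trichotomy η l' with h | h | h
    · exact hF.lim η h hlim
    · subst h
      rw [hF.out η le_rfl, hF.inter hlim]
    · rw [hF.out η h.le]
      symm
      rw [eq_empty_iff_forall_notMem]
      intro x hx
      have := mem_iInter₂.1 hx l' h
      rw [hF.out l' le_rfl] at this
      exact this
  · intro x
    rcases hl'.eq_or_lt with h | h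
    · subst h
      have := hF.inter hl
      by_contra hc
      push Not at hc
      have h2 : x ∈ (⋂ θ, ⋂ (_ : θ < l'), F θ) := mem_iInter₂.2 hc
      rw [this] at h2
      exact h2
    · exact ⟨l', h, by rw [hF.out l' le_rfl]; exact fun h => h⟩

end

/-- Gluing -/
theorem glue {X : Type} [TopologicalSpace X] [PolishSpace X] {ξ l : Ordinal.{0}} (hξ : 2 ≤ ξ)
    (hl : Order.IsSuccLimit l) {A B : Set X} {ι : Type*} [Countable ι] [Nonempty ι]
    (S : ι → Set X) (hS : ∀ i, Sig ξ (S i)) (hU : ∀ x, ∃ i, x ∈ S i)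
    (F : ι → Ordinal.{0} → Set X) (hF : ∀ i, Seq0 ξ l (F i))
    (hout : ∀ i, ∀ x ∈ S i, ∃ θ < l, x ∉ F i θ)
    (hA : ∀ i, ∀ x ∈ S i, x ∈ A → x ∈ DiffSet l (F i))
    (hB : ∀ i, ∀ x ∈ S i, x ∈ B → x ∉ DiffSet l (F i)) : SepLen ξ A B l := by
  obtain ⟨e, he⟩ := exists_surjective_nat ι
  obtain ⟨P, hP1, hP2, hP3, hP4⟩ := main_R X ξ hξ (fun n => S (e n)) (fun n => hS _) (by
    rw [eq_univ_iff_forall]
    intro x
    obtain ⟨i, hi⟩ := hU x
    obtain ⟨n, rfl⟩ := he i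
    exact mem_iUnion.2 ⟨n, hi⟩)
  have h1 : 1 ≤ ξ := le_trans (by norm_num) hξ
  have hex : ∀ x, ∃ n, x ∈ P n := by
    intro x
    have : x ∈ ⋃ n, P n := by rw [hP4]; trivial
    exact mem_iUnion.1 this
  have huniq : ∀ x m n, x ∈ P m → x ∈ P n → m = n := by
    intro x m n hm hn
    by_contra hc
    exact Set.disjoint_left.1 (hP3 hc) hm hn
  let G : Ordinal.{0} → Set X := fun θ => {x | θ < l ∧ ∃ n, x ∈ P n ∧ x ∈ F (e n) θ}
  have hG : ∀ x n, x ∈ P n → ∀ θ < l, (x ∈ G θ ↔ x ∈ F (e n) θ) := by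
    intro x n hn θ hθ
    constructor
    · rintro ⟨-, m, hm, hx⟩
      rw [huniq x n m hn hm]
      exact hx
    · intro hx
      exact ⟨hθ, n, hn, hx⟩
  have hD : ∀ x n, x ∈ P n → (x ∈ DiffSet l G ↔ x ∈ DiffSet l (F (e n))) := by
    intro x n hn
    constructor
    · rintro ⟨η, a1, a2, a3, a4⟩
      exact ⟨η, a1, a2, (hG x n hn η a1).1 a3,
        fun h => a4 ((hG x n hn _ (limit_add_one hl a1)).2 h)⟩
    · rintro ⟨η, a1, a2, a3, a4⟩
      exact ⟨η, a1, a2, (hG x n hn η a1).2 a3,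
        fun h => a4 ((hG x n hn _ (limit_add_one hl a1)).1 h)⟩
  have hl0 : 0 < l := hl.bot_lt
  refine ⟨G, ⟨?_, ?_, ?_, ?_, ?_, ?_⟩, ?_, ?_⟩
  · rw [eq_univ_iff_forall]
    intro x
    obtain ⟨n, hn⟩ := hex x
    rw [hG x n hn 0 hl0, (hF _).zero]
    trivial
  · rintro θ η h x ⟨hη, n, hn, hx⟩
    exact ⟨h.trans_lt hη, n, hn, (hF _).anti θ η h hη hx⟩
  · intro η hη
    have : (G η)ᶜ = ⋃ n, (P n ∩ (F (e n) η)ᶜ) := by
      ext x
      simp only [mem_compl_iff, mem_iUnion, mem_inter_iff]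
      obtain ⟨n, hn⟩ := hex x
      constructor
      · intro h
        exact ⟨n, hn, fun h' => h ((hG x n hn η hη).2 h')⟩
      · rintro ⟨m, hm, hx⟩ h
        exact hx ((hG x m hm η hη).1 h)
    unfold Pi0
    rw [this]
    exact sig_iUnion h1 fun n => (hP2 n).1.inter ((hF _).pi η hη)
  · intro η hη hlim
    ext x
    obtain ⟨n, hn⟩ := hex x
    rw [hG x n hn η hη, (hF _).lim η hη hlim]
    simp only [mem_iInter]
    constructor
    · intro h θ hθ
      exact (hG x n hn θ (hθ.trans hη)).2 (h θ hθ)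
    · intro h θ hθ
      exact (hG x n hn θ (hθ.trans hη)).1 (h θ hθ)
  · intro _
    rw [eq_empty_iff_forall_notMem]
    intro x hx
    obtain ⟨n, hn⟩ := hex x
    obtain ⟨θ, hθ, hx'⟩ := hout (e n) x (hP1 n hn)
    exact hx' ((hG x n hn θ hθ).1 (mem_iInter₂.1 hx θ hθ))
  · intro η hη
    rw [eq_empty_iff_forall_notMem]
    rintro x ⟨h, -⟩
    exact absurd h (not_lt.2 hη)
  · intro x hx
    obtain ⟨n, hn⟩ := hex x
    rw [hD x n hn]
    exact hA _ x (hP1 n hn) hx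
  · rw [Set.disjoint_left]
    intro x hx
    obtain ⟨n, hn⟩ := hex x
    rw [hD x n hn]
    exact hB _ x (hP1 n hn) hx

end Pool.Agent.R591.BR
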