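import Pool.Agent.R591.BR.Basic

/-!
# Piece U: the upper bound for ranks with the properties 1-5 (MP_106504_lc)
-/

set_option autoImplicit false

namespace Pool.Agent.R591.BR.U

open Set Topology TopologicalSpace
open scoped Ordinal

section Sequences

variable {X : Type} [TopologicalSpace X]

/-! ### difference sets of sequences -/

theorem diff_iff {ξ l : Ordinal.{0}} {F : Ordinal.{0} → Set X} (h : IsSeq ξ l F) {x : X}
    {η : Ordinal.{0}} (hx : x ∈ F η) (hx' : x ∉ F (η + 1)) : x ∈ DiffSet l F ↔ Ev η := by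
  have hηl : η < l := by
    by_contra hc
    rw [h.out η (not_lt.1 hc)] at hx
    exact hx
  constructor
  · rintro ⟨θ, hθ, hev, hxθ, hxθ'⟩
    have : θ = η := by
      rcases lt_trichotomy θ η with hlt | heq | hgt
      · exact absurd (h.anti _ _ (Order.add_one_le_iff.2 hlt) hx) hxθ'
      · exact heq
      · exact absurd (h.anti _ _ (Order.add_one_le_iff.2 hgt) hxθ) hx'
    rw [← this]; exact hev
  · intro hev
    exact ⟨η, hηl, hev, hx, hx'⟩

theorem leave {ξ l : Ordinal.{0}} {F : Ordinal.{0} → Set X} (h : IsSeq ξ l F) (x : X) :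
    ∃ η, η < l ∧ x ∈ F η ∧ x ∉ F (η + 1) := by
  have hxl : l ∈ {τ : Ordinal.{0} | x ∉ F τ} := by
    show x ∉ F l
    rw [h.out l le_rfl]; exact notMem_empty x
  have hτ : sInf {τ : Ordinal.{0} | x ∉ F τ} ∈ {τ : Ordinal.{0} | x ∉ F τ} := csInf_mem ⟨l, hxl⟩
  have hmin : ∀ θ : Ordinal.{0}, θ < sInf {τ : Ordinal.{0} | x ∉ F τ} → x ∈ F θ := by
    intro θ hθ
    by_contra hc
    exact absurd (csInf_le' (s := {τ : Ordinal.{0} | x ∉ F τ}) hc) (not_le.2 hθ)
  have hle : sInf {τ : Ordinal.{0} | x ∉ F τ} ≤ l := csInf_le' hxl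
  generalize sInf {τ : Ordinal.{0} | x ∉ F τ} = τ at hτ hmin hle
  have hτ' : x ∉ F τ := hτ
  rcases Ordinal.zero_or_succ_or_isSuccLimit τ with h0 | ⟨η, hη⟩ | hlim
  · rw [h0, h.zero] at hτ'; exact absurd (mem_univ x) hτ'
  · have hη' : η + 1 = τ := by rw [← hη]; exact Order.succ_eq_add_one η ▸ rfl
    have hlt : η < τ := by rw [← hη']; exact Order.lt_add_one_iff.2 le_rfl
    refine ⟨η, lt_of_lt_of_le hlt hle, hmin η hlt, ?_⟩
    rw [hη']; exact hτ'
  · exfalso
    have hx : x ∈ ⋂ θ, ⋂ (_ : θ < τ), F θ := mem_iInter₂.2 hmin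
    rcases hle.eq_or_lt with heq | hlt
    · rw [heq] at hx hlim
      rw [h.inter hlim] at hx
      exact hx
    · rw [← h.lim τ hlt hlim] at hx
      exact hτ' hx

/-- extension of a sequence to a longer limit length -/
theorem extend {ξ l lam : Ordinal.{0}} (hξ : 1 ≤ ξ) {F : Ordinal.{0} → Set X} (h : IsSeq ξ l F)
    (hl : l ≤ lam) : IsSeq ξ lam F := by
  refine ⟨h.zero, h.anti, ?_, ?_, ?_, fun η hη => h.out η (hl.trans hη)⟩
  · intro η _
    rcases lt_or_ge η l with h1 | h1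
    · exact h.pi η h1
    · rw [h.out η h1]; exact pi_empty hξ
  · intro η _ hlim
    rcases lt_trichotomy η l with h1 | h1 | h1
    · exact h.lim η h1 hlim
    · rw [h.out η h1.ge]
      rw [h1] at hlim ⊢
      exact (h.inter hlim).symm
    · rw [h.out η h1.le]
      refine (subset_eq_empty ?_ rfl).symm
      intro x hx
      have := (mem_iInter₂.1 hx) l h1
      rwa [h.out l le_rfl] at this
  · intro hlim
    rcases hl.eq_or_lt with h1 | h1
    · rw [← h1] at hlim ⊢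
      exact h.inter hlim
    · refine subset_eq_empty ?_ rfl
      intro x hx
      have := (mem_iInter₂.1 hx) l h1
      rwa [h.out l le_rfl] at this

theorem diff_extend {ξ l lam : Ordinal.{0}} {F : Ordinal.{0} → Set X} (h : IsSeq ξ l F)
    (hl : l ≤ lam) : DiffSet lam F = DiffSet l F := by
  ext x
  constructor
  · rintro ⟨η, _, hev, hx, hx'⟩
    exact (diff_iff h hx hx').2 hev
  · rintro ⟨η, hη, hev, hx, hx'⟩
    exact ⟨η, hη.trans_le hl, hev, hx, hx'⟩

/-- the shifted sequence -/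
def shift (F : Ordinal.{0} → Set X) : Ordinal.{0} → Set X := fun θ => ⋂ θ', ⋂ (_ : θ' < θ), F θ'

theorem shift_seq {ξ lam : Ordinal.{0}} (hξ : 1 ≤ ξ) (hlim : Order.IsSuccLimit lam)
    (hlam : lam < ω₁) {F : Ordinal.{0} → Set X} (h : IsSeq ξ lam F) : IsSeq ξ lam (shift F) := by
  have hanti : ∀ θ η, θ ≤ η → shift F η ⊆ shift F θ := by
    intro θ η hle x hx
    exact mem_iInter₂.2 fun θ' hθ' => mem_iInter₂.1 hx θ' (hθ'.trans_le hle)
  have hkey : ∀ η, Order.IsSuccLimit η → shift F η = ⋂ θ, ⋂ (_ : θ < η), shift F θ := by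
    intro η hη
    apply Subset.antisymm
    · intro x hx
      exact mem_iInter₂.2 fun θ hθ => hanti _ _ hθ.le hx
    · intro x hx
      refine mem_iInter₂.2 fun θ hθ => ?_
      have h1 : θ + 1 < η := by
        have := hη.succ_lt hθ
        rwa [Order.succ_eq_add_one] at this
      exact mem_iInter₂.1 (mem_iInter₂.1 hx (θ + 1) h1) θ (Order.lt_add_one_iff.2 le_rfl)
  refine ⟨?_, hanti, ?_, fun η _ hη => hkey η hη, ?_, ?_⟩
  · ext x
    simp only [mem_univ, iff_true]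
    exact mem_iInter₂.2 fun θ hθ => absurd hθ not_lt_zero
  · intro η hη
    exact pi_iInter_lt hξ (hη.trans hlam) fun θ hθ => h.pi θ (hθ.trans hη)
  · intro hl
    rw [← hkey lam hl]
    exact h.inter hl
  · intro η hη
    refine subset_eq_empty ?_ rfl
    intro x hx
    have := hanti _ _ hη hx
    have h2 : x ∈ ⋂ θ, ⋂ (_ : θ < lam), F θ := this
    rwa [h.inter hlim] at h2

theorem diff_shift {ξ lam : Ordinal.{0}} (hξ : 1 ≤ ξ) (hlim : Order.IsSuccLimit lam)
    (hlam : lam < ω₁) {F : Ordinal.{0} → Set X} (h : IsSeq ξ lam F) :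
    DiffSet lam (shift F) = (DiffSet lam F)ᶜ := by
  ext x
  obtain ⟨η, hη, hx, hx'⟩ := leave h x
  have h1 : x ∈ shift F (η + 1) :=
    mem_iInter₂.2 fun θ hθ => h.anti _ _ (Order.lt_add_one_iff.1 hθ) hx
  have h2 : x ∉ shift F (η + 1 + 1) := fun hc =>
    hx' (mem_iInter₂.1 hc (η + 1) (Order.lt_add_one_iff.2 le_rfl))
  rw [diff_iff (shift_seq hξ hlim hlam h) h1 h2, ev_succ, mem_compl_iff, diff_iff h hx hx']

/-- the trivial sequence -/
theorem triv_seq {ξ : Ordinal.{0}} (hξ : 1 ≤ ξ) :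
    IsSeq ξ 1 (fun θ : Ordinal.{0} => {_x : X | θ = 0}) := by
  have h0 : ∀ η : Ordinal.{0}, η < 1 → η = 0 := fun η h => Order.lt_one_iff.1 h
  refine ⟨?_, ?_, ?_, ?_, ?_, ?_⟩
  · ext x; simp
  · intro θ η hle x hx
    have hx' : η = 0 := hx
    show θ = 0
    rw [hx'] at hle
    exact le_antisymm hle zero_le
  · intro η hη
    rw [h0 η hη]
    have : {_x : X | (0 : Ordinal.{0}) = 0} = univ := by ext x; simp
    rw [this]; exact pi_univ hξ
  · intro η hη hlim
    rw [h0 η hη] at hlim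
    exact absurd hlim Ordinal.not_isSuccLimit_zero
  · intro hlim
    have := hlim.succ_lt (a := 0) zero_lt_one
    rw [Order.succ_eq_add_one, zero_add] at this
    exact absurd this (lt_irrefl _)
  · intro η hη
    ext x
    simp only [mem_empty_iff_false, iff_false]
    intro hc
    have hc' : η = 0 := hc
    rw [hc'] at hη
    exact absurd hη (by simp)

theorem triv_diff {ξ : Ordinal.{0}} (hξ : 1 ≤ ξ) :
    DiffSet 1 (fun θ : Ordinal.{0} => {_x : X | θ = 0}) = univ := by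
  ext x
  simp only [mem_univ, iff_true]
  refine (diff_iff (triv_seq hξ) (η := 0) rfl ?_).2 ev_zero
  intro hc
  have : (0 : Ordinal.{0}) + 1 = 0 := hc
  simp at this

/-- the class of the differences of length at most `lam` -/
def DD (ξ lam : Ordinal.{0}) (D : Set X) : Prop :=
  ∃ l F, l ≤ lam ∧ IsSeq ξ l F ∧ DiffSet l F = D

theorem DD.full {ξ lam : Ordinal.{0}} (hξ : 1 ≤ ξ) {D : Set X} (h : DD ξ lam D) :
    ∃ F, IsSeq ξ lam F ∧ DiffSet lam F = D := by
  obtain ⟨l, F, hl, hF, hD⟩ := h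
  exact ⟨F, extend hξ hF hl, by rw [diff_extend hF hl, hD]⟩

theorem DD.compl {ξ lam : Ordinal.{0}} (hξ : 1 ≤ ξ) (hlim : Order.IsSuccLimit lam)
    (hlam : lam < ω₁) {D : Set X} (h : DD ξ lam D) : DD ξ lam Dᶜ := by
  obtain ⟨F, hF, hD⟩ := h.full hξ
  exact ⟨lam, shift F, le_rfl, shift_seq hξ hlim hlam hF, by
    rw [diff_shift hξ hlim hlam hF, hD]⟩

theorem DD.univ {ξ lam : Ordinal.{0}} (hξ : 1 ≤ ξ) (hlam : 1 ≤ lam) :
    DD ξ lam (Set.univ : Set X) := ⟨1, _, hlam, triv_seq hξ, triv_diff hξ⟩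

theorem DD.sep {ξ lam : Ordinal.{0}} (hξ : 1 ≤ ξ) {D A B : Set X} (h : DD ξ lam D) (hA : A ⊆ D)
    (hB : Disjoint B D) : SepLen ξ A B lam := by
  obtain ⟨F, hF, hD⟩ := h.full hξ
  exact ⟨F, hF, by rw [hD]; exact hA, by rw [hD]; exact hB⟩

theorem DD.sig [MetrizableSpace X] {ξ lam : Ordinal.{0}} (hξ : 1 ≤ ξ)
    (hlam : lam < ω₁) {D : Set X} (h : DD ξ lam D) : Sig (ξ + 1) D := by
  obtain ⟨F, hF, rfl⟩ := h.full hξ
  have h1 : (1 : Ordinal.{0}) ≤ ξ + 1 := hξ.trans le_self_add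
  have hlt : ξ < ξ + 1 := Order.lt_add_one_iff.2 le_rfl
  have hpi : ∀ η : Ordinal.{0}, Pi0 ξ (F η) := by
    intro η
    rcases lt_or_ge η lam with h2 | h2
    · exact hF.pi η h2
    · rw [hF.out η h2]; exact pi_empty hξ
  have : DiffSet lam F = ⋃ η, ⋃ (_ : η < lam), (F η \ F (η + 1)) ∩ {_x : X | Ev η} := by
    ext x
    simp only [mem_iUnion, exists_prop]
    constructor
    · rintro ⟨η, hη, hev, hx, hx'⟩
      exact ⟨η, hη, ⟨hx, hx'⟩, hev⟩
    · rintro ⟨η, hη, ⟨hx, hx'⟩, hev⟩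
      exact ⟨η, hη, hev, hx, hx'⟩
  rw [this]
  refine sig_iUnion_lt h1 hlam fun η hη => ?_
  have h2 : Sig (ξ + 1) (F η \ F (η + 1)) :=
    ((hpi η).sig hlt).inter (Sig.mono (hpi (η + 1)) hlt.le)
  refine h2.inter ?_
  by_cases hev : Ev η
  · have : {_x : X | Ev η} = Set.univ := by ext x; simp [hev]
    rw [this]; exact sig_univ h1
  · have : {_x : X | Ev η} = ∅ := by ext x; simp [hev]
    rw [this]; exact sig_empty h1

theorem DD.del [MetrizableSpace X] {ξ lam : Ordinal.{0}} (hξ : 1 ≤ ξ)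
    (hlim : Order.IsSuccLimit lam) (hlam : lam < ω₁) {D : Set X} (h : DD ξ lam D) :
    Del (ξ + 1) D := ⟨h.sig hξ hlam, (h.compl hξ hlim hlam).sig hξ hlam⟩

/-! ### characteristic functions -/

omit [TopologicalSpace X] in
theorem chi_mem {D : Set X} {x : X} (h : x ∈ D) : chi D x = 1 := by
  unfold chi; rw [indicator_of_mem h]; rfl

omit [TopologicalSpace X] in
theorem chi_notMem {D : Set X} {x : X} (h : x ∉ D) : chi D x = 0 := by
  unfold chi; rw [indicator_of_notMem h]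

theorem DD.alpha_le {ξ lam : Ordinal.{0}} (hξ : 1 ≤ ξ) (hlim : Order.IsSuccLimit lam)
    (hlam : lam < ω₁) {D : Set X} (h : DD ξ lam D) : alpha ξ (chi D) ≤ lam := by
  have h1 : 1 ≤ lam := by
    rw [Order.one_le_iff_pos]
    exact pos_iff_ne_zero.2 (Ordinal.isSuccLimit_iff.1 hlim).1
  refine ciSup_le' fun r => ?_
  obtain ⟨⟨p, q⟩, hpq⟩ := r
  have hpq' : (p : ℝ) < (q : ℝ) := by exact_mod_cast hpq
  refine csInf_le' (Or.inr ?_)
  show SepLen ξ {x | chi D x ≤ (p : ℝ)} {x | (q : ℝ) ≤ chi D x} lam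
  by_cases hp : (p : ℝ) < 0
  · refine ((DD.univ hξ h1).compl hξ hlim hlam).sep hξ ?_ ?_
    · intro x hx
      exfalso
      have hx' : chi D x ≤ (p : ℝ) := hx
      by_cases hxD : x ∈ D
      · rw [chi_mem hxD] at hx'; linarith
      · rw [chi_notMem hxD] at hx'; linarith
    · rw [compl_univ]; exact disjoint_empty _
  · by_cases hq : (1 : ℝ) < (q : ℝ)
    · refine (DD.univ hξ h1).sep hξ (subset_univ _) ?_
      rw [Set.disjoint_left]
      intro x hx _
      have hx' : (q : ℝ) ≤ chi D x := hx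
      by_cases hxD : x ∈ D
      · rw [chi_mem hxD] at hx'; linarith
      · rw [chi_notMem hxD] at hx'; linarith
    · refine (h.compl hξ hlim hlam).sep hξ ?_ ?_
      · intro x hx hxD
        have hx' : chi D x ≤ (p : ℝ) := hx
        rw [chi_mem hxD] at hx'
        linarith
      · rw [Set.disjoint_left]
        intro x hx hxD
        have hx' : (q : ℝ) ≤ chi D x := hx
        rw [chi_notMem hxD] at hx'
        linarith

end Sequences

/-! ### Baire classes -/

section Baire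

variable {X : Type} [TopologicalSpace X]

theorem bc_chi [MetrizableSpace X] {ξ : Ordinal.{0}} {D : Set X} (h : Del (ξ + 1) D) :
    BC ξ (chi D) := by
  constructor
  · refine ⟨1, fun x => ?_⟩
    by_cases hx : x ∈ D
    · rw [chi_mem hx]; simp
    · rw [chi_notMem hx]; simp
  · intro U _
    have h1 : 1 ≤ ξ + 1 := h.1.one_le
    by_cases hU1 : (1 : ℝ) ∈ U <;> by_cases hU0 : (0 : ℝ) ∈ U
    · have : chi D ⁻¹' U = univ := by
        ext x
        by_cases hx : x ∈ D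
        · simp [chi_mem hx, hU1]
        · simp [chi_notMem hx, hU0]
      rw [this]; exact sig_univ h1
    · have : chi D ⁻¹' U = D := by
        ext x
        by_cases hx : x ∈ D
        · simp [chi_mem hx, hU1, hx]
        · simp [chi_notMem hx, hU0, hx]
      rw [this]; exact h.1
    · have : chi D ⁻¹' U = Dᶜ := by
        ext x
        by_cases hx : x ∈ D
        · simp [chi_mem hx, hU1, hx]
        · simp [chi_notMem hx, hU0, hx]
      rw [this]; exact h.2
    · have : chi D ⁻¹' U = ∅ := by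
        ext x
        by_cases hx : x ∈ D
        · simp [chi_mem hx, hU1]
        · simp [chi_notMem hx, hU0]
      rw [this]; exact sig_empty h1

theorem bc_mul {ξ : Ordinal.{0}} {f : X → ℝ} (h : BC ξ f) (c : ℝ) :
    BC ξ (fun x => c * f x) := by
  obtain ⟨⟨M, hM⟩, hf⟩ := h
  refine ⟨⟨|c| * M, fun x => ?_⟩, fun U hU => ?_⟩
  · rw [abs_mul]
    exact mul_le_mul_of_nonneg_left (hM x) (abs_nonneg c)
  · have : (fun x => c * f x) ⁻¹' U = f ⁻¹' ((fun t : ℝ => c * t) ⁻¹' U) := rfl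
    rw [this]
    exact hf _ (hU.preimage (continuous_const.mul continuous_id))

theorem bc_add [MetrizableSpace X] {ξ : Ordinal.{0}} {f g : X → ℝ} (hf : BC ξ f) (hg : BC ξ g) :
    BC ξ (fun x => f x + g x) := by
  obtain ⟨⟨M, hM⟩, hf⟩ := hf
  obtain ⟨⟨N, hN⟩, hg⟩ := hg
  refine ⟨⟨M + N, fun x => (abs_add_le _ _).trans (add_le_add (hM x) (hN x))⟩, fun U hU => ?_⟩
  have h1 : 1 ≤ ξ + 1 := (hf U hU).one_le
  have hW : IsOpen ((fun p : ℝ × ℝ => p.1 + p.2) ⁻¹' U) :=
    hU.preimage (continuous_fst.add continuous_snd)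
  have hB := (isBasis_countableBasis ℝ).prod (isBasis_countableBasis ℝ)
  have hc : (image2 (fun s t : Set ℝ => s ×ˢ t) (countableBasis ℝ) (countableBasis ℝ)).Countable :=
    (countable_countableBasis ℝ).image2 (countable_countableBasis ℝ) _
  have hW' := hB.open_eq_sUnion' hW
  have : (fun x => f x + g x) ⁻¹' U = ⋃ S ∈ {s ∈ image2 (fun s t : Set ℝ => s ×ˢ t)
      (countableBasis ℝ) (countableBasis ℝ) | s ⊆ (fun p : ℝ × ℝ => p.1 + p.2) ⁻¹' U},
      (fun x => (f x, g x)) ⁻¹' S := by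
    rw [← preimage_iUnion₂, ← sUnion_eq_biUnion, ← hW']
    rfl
  rw [this]
  refine sig_biUnion (hc.mono (sep_subset _ _)) h1 ?_
  rintro S ⟨⟨A, hA, B, hB, rfl⟩, _⟩
  have : (fun x => (f x, g x)) ⁻¹' (A ×ˢ B) = f ⁻¹' A ∩ g ⁻¹' B := by
    ext x; simp
  show Sig (ξ + 1) ((fun x => (f x, g x)) ⁻¹' (A ×ˢ B))
  rw [this]
  exact (hf A (isOpen_of_mem_countableBasis hA)).inter (hg B (isOpen_of_mem_countableBasis hB))

end Baire

/-! ### grid approximation -/

theorem grid {n : ℕ} {M t e : ℝ} (hM : |t| ≤ M) (he : 0 ≤ e) (hn : e * n = 2 * M)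
    (c : ℕ → ℝ) (h0 : ∀ i, c i = 0 ∨ c i = 1) (h1 : ∀ i < n, t ≤ -M + e * i → c i = 1)
    (h2 : ∀ i < n, -M + e * (i + 1) ≤ t → c i = 0) :
    |t - (M - ∑ i ∈ Finset.range n, e * c i)| ≤ e := by
  have hM' := abs_le.1 hM
  have hub : ∑ i ∈ Finset.range n, e * c i ≤
      ∑ i ∈ Finset.range n, (max (-M + e * (((i + 1 : ℕ) : ℝ) + 1)) t
        - max (-M + e * ((i : ℝ) + 1)) t) := by
    refine Finset.sum_le_sum fun i hi => ?_
    have hi' := Finset.mem_range.1 hi
    push_cast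
    rcases le_or_gt (-M + e * ((i : ℝ) + 1)) t with h | h
    · rw [h2 i hi' h, max_eq_right h, mul_zero, sub_nonneg]
      exact le_max_right _ _
    · have h3 : t ≤ -M + e * ((i : ℝ) + 1 + 1) := by nlinarith
      rw [max_eq_left h.le, max_eq_left h3]
      rcases h0 i with h4 | h4 <;> rw [h4] <;> nlinarith
  have hlb : ∑ i ∈ Finset.range n, (max (-M + e * (((i + 1 : ℕ) : ℝ) - 1)) t
        - max (-M + e * ((i : ℝ) - 1)) t) ≤ ∑ i ∈ Finset.range n, e * c i := by
    refine Finset.sum_le_sum fun i hi => ?_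
    have hi' := Finset.mem_range.1 hi
    push_cast
    have h5 : (i : ℝ) + 1 - 1 = i := by ring
    rw [h5]
    rcases le_or_gt t (-M + e * (i : ℝ)) with h | h
    · rw [h1 i hi' h, max_eq_left h]
      have h6 : -M + e * ((i : ℝ) - 1) ≤ max (-M + e * ((i : ℝ) - 1)) t := le_max_left _ _
      nlinarith
    · have h3 : -M + e * ((i : ℝ) - 1) ≤ t := by nlinarith
      rw [max_eq_right h.le, max_eq_right h3, sub_self]
      rcases h0 i with h4 | h4 <;> rw [h4] <;> nlinarith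
  rw [Finset.sum_range_sub (fun i : ℕ => max (-M + e * ((i : ℝ) + 1)) t)] at hub
  rw [Finset.sum_range_sub (fun i : ℕ => max (-M + e * ((i : ℝ) - 1)) t)] at hlb
  have h7 : max (-M + e * ((n : ℝ) + 1)) t = M + e := by
    rw [max_eq_left]
    · nlinarith
    · nlinarith
  have h8 : -M + e * (((0 : ℕ) : ℝ) + 1) ≤ max (-M + e * (((0 : ℕ) : ℝ) + 1)) t := le_max_left _ _
  have h8' : t ≤ max (-M + e * (((0 : ℕ) : ℝ) + 1)) t := le_max_right _ _
  have h9 : max (-M + e * (((0 : ℕ) : ℝ) - 1)) t = t := by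
    apply max_eq_right
    push_cast
    nlinarith
  have h10 : -M + e * ((n : ℝ) - 1) ≤ max (-M + e * ((n : ℝ) - 1)) t := le_max_left _ _
  rw [abs_le]
  constructor
  · nlinarith
  · nlinarith

/-! ### the main theorem -/

theorem main_U : Stm_U := by
  intro ξ hξ hξω ρ hρ X _ _ f hf η hη hηω halpha
  have hξ1 : (1 : Ordinal.{0}) ≤ ξ := le_trans (by norm_num) hξ
  have hlim := isSuccLimit_opow hη
  have hlam := opow_lt hηω
  have hlam1 : (1 : Ordinal.{0}) ≤ ω ^ η := by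
    rw [Order.one_le_iff_pos]
    exact pos_iff_ne_zero.2 (Ordinal.isSuccLimit_iff.1 hlim).1
  -- the functions of small rank
  have good_chi : ∀ D : Set X, DD ξ (ω ^ η) D → BC ξ (chi D) ∧ ρ X (chi D) ≤ ω ^ η := by
    intro D hD
    have h1 := hD.del hξ1 hlim hlam
    exact ⟨bc_chi h1, (hρ.p1 X D h1).1 η hη hηω (hD.alpha_le hξ1 hlim hlam)⟩
  have good_mul : ∀ (g : X → ℝ) (c : ℝ), c ≠ 0 → (BC ξ g ∧ ρ X g ≤ ω ^ η) →
      (BC ξ (fun x => c * g x) ∧ ρ X (fun x => c * g x) ≤ ω ^ η) := by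
    intro g c hc hg
    exact ⟨bc_mul hg.1 c, (hρ.p2a X g c hg.1 hc).1 η hη hηω hg.2⟩
  have good_add : ∀ g h : X → ℝ, (BC ξ g ∧ ρ X g ≤ ω ^ η) → (BC ξ h ∧ ρ X h ≤ ω ^ η) →
      (BC ξ (fun x => g x + h x) ∧ ρ X (fun x => g x + h x) ≤ ω ^ η) := by
    intro g h hg hh
    exact ⟨bc_add hg.1 hh.1, hρ.p2b X g h hg.1 hh.1 η hη hηω (max_le hg.2 hh.2)⟩
  -- separating sets
  have hsep : ∀ p q : ℚ, p < q → ∃ D : Set X, DD ξ (ω ^ η) D ∧ (∀ x, f x ≤ (p : ℝ) → x ∈ D) ∧
      ∀ x, (q : ℝ) ≤ f x → x ∉ D := by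
    intro p q hpq
    have h1 : alphaSet ξ {x | f x ≤ (p : ℝ)} {x | (q : ℝ) ≤ f x} ≤ ω ^ η :=
      (Ordinal.le_iSup (fun r : {r : ℚ × ℚ // r.1 < r.2} =>
        alphaSet ξ {x | f x ≤ (r.1.1 : ℝ)} {x | (r.1.2 : ℝ) ≤ f x}) ⟨(p, q), hpq⟩).trans halpha
    have h2 : alphaSet ξ {x | f x ≤ (p : ℝ)} {x | (q : ℝ) ≤ f x} ∈
        {l | l = ω₁ ∨ SepLen ξ {x | f x ≤ (p : ℝ)} {x | (q : ℝ) ≤ f x} l} :=
      csInf_mem ⟨ω₁, Or.inl rfl⟩
    rcases h2 with h2 | ⟨F, hF, hA, hB⟩
    · rw [h2] at h1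
      exact absurd (h1.trans_lt hlam) (lt_irrefl _)
    · refine ⟨_, ⟨_, F, h1, hF, rfl⟩, fun x hx => hA hx, fun x hx hx' => ?_⟩
      exact Set.disjoint_left.1 hB hx hx'
  -- the bound
  obtain ⟨M0, hM0⟩ := hf.1
  obtain ⟨M, hM⟩ := exists_nat_gt (max M0 0)
  have hMpos : (0 : ℝ) < M := (le_max_right _ _).trans_lt hM
  have hfM : ∀ x, |f x| ≤ M := fun x => (hM0 x).trans ((le_max_left _ _).trans hM.le)
  have hMq : (0 : ℚ) < M := by exact_mod_cast hMpos
  -- approximations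
  have happ : ∀ n : ℕ, ∃ g : X → ℝ, (BC ξ g ∧ ρ X g ≤ ω ^ η) ∧
      ∀ x, |f x - g x| ≤ 2 * M / (n + 1 : ℝ) := by
    intro n
    have hepos : (0 : ℚ) < 2 * M / (n + 1) := by positivity
    choose D hD hD1 hD2 using fun i : ℕ => hsep (-M + 2 * M / (n + 1) * i)
      (-M + 2 * M / (n + 1) * (i + 1)) (by nlinarith)
    have hsum : ∀ m : ℕ, BC ξ (fun x => (M : ℝ) + ∑ i ∈ Finset.range m,
        -(2 * M / (n + 1 : ℝ)) * chi (D i) x) ∧ ρ X (fun x => (M : ℝ) + ∑ i ∈ Finset.range m,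
        -(2 * M / (n + 1 : ℝ)) * chi (D i) x) ≤ ω ^ η := by
      intro m
      induction m with
      | zero =>
        have := good_mul _ (M : ℝ) hMpos.ne' (good_chi univ (DD.univ hξ1 hlam1))
        have h1 : (fun x => (M : ℝ) + ∑ i ∈ Finset.range 0,
            -(2 * M / (n + 1 : ℝ)) * chi (D i) x) = fun x : X => (M : ℝ) * chi univ x := by
          funext x
          rw [chi_mem (mem_univ x)]
          simp
        rw [h1]; exact this
      | succ m ih =>
        have h1 := good_mul _ (-(2 * M / (n + 1 : ℝ))) (by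
          have : (0 : ℝ) < 2 * M / (n + 1) := by positivity
          exact (neg_neg_of_pos this).ne) (good_chi (D m) (hD m))
        have h2 := good_add _ _ ih h1
        have h3 : (fun x => (M : ℝ) + ∑ i ∈ Finset.range (m + 1),
            -(2 * M / (n + 1 : ℝ)) * chi (D i) x) = fun x => ((M : ℝ) + ∑ i ∈ Finset.range m,
            -(2 * M / (n + 1 : ℝ)) * chi (D i) x) + -(2 * M / (n + 1 : ℝ)) * chi (D m) x := by
          funext x
          rw [Finset.sum_range_succ, add_assoc]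
        rw [h3]; exact h2
    refine ⟨_, hsum (n + 1), fun x => ?_⟩
    have hg := grid (n := n + 1) (M := M) (t := f x) (e := 2 * M / (n + 1 : ℝ)) (hfM x)
      (by positivity) (by push_cast; field_simp) (fun i => chi (D i) x)
      (fun i => by
        by_cases hx : x ∈ D i
        · right; exact chi_mem hx
        · left; exact chi_notMem hx)
      (fun i _ hx => chi_mem (hD1 i x (by push_cast; exact hx)))
      (fun i _ hx => chi_notMem (hD2 i x (by push_cast; exact hx)))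
    have h1 : (M : ℝ) - ∑ i ∈ Finset.range (n + 1), 2 * M / (n + 1 : ℝ) * chi (D i) x =
        (M : ℝ) + ∑ i ∈ Finset.range (n + 1), -(2 * M / (n + 1 : ℝ)) * chi (D i) x := by
      rw [sub_eq_add_neg, ← Finset.sum_neg_distrib]
      congr 1
      exact Finset.sum_congr rfl fun i _ => by ring
    rw [h1] at hg
    exact hg
  choose g hg hg' using happ
  have hunif : TendstoUniformly g f Filter.atTop := by
    rw [Metric.tendstoUniformly_iff]
    intro ε hε
    have h1 : Filter.Tendsto (fun n : ℕ => 2 * (M : ℝ) / ((n : ℝ) + 1)) Filter.atTop (𝓝 0) := by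
      have := (tendsto_one_div_add_atTop_nhds_zero_nat (𝕜 := ℝ)).const_mul (2 * (M : ℝ))
      rw [mul_zero] at this
      refine this.congr fun n => ?_
      rw [mul_one_div]
    filter_upwards [h1.eventually_lt_const hε] with n hn x
    rw [Real.dist_eq]
    exact (hg' n x).trans_lt hn
  exact hρ.p3 X f g hf (fun n => (hg n).1) hunif η hη hηω (ciSup_le' fun n => (hg n).2)

end Pool.Agent.R591.BR.U
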