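import Pool.Agent.R591.BR.Seq

/-!
# Vaught transforms along a continuous open surjection
-/

set_option autoImplicit false

namespace Pool.Agent.R591.BR.V

open Set Topology TopologicalSpace
open scoped Ordinal

section

variable {X : Type} [TopologicalSpace X] [PolishSpace X] {π : (ℕ → ℕ) → X}

/-- the points in whose fibre `E ∩ V` is not meagre -/
def NM (π : (ℕ → ℕ) → X) (E V : Set (ℕ → ℕ)) : Set X :=
  {x | ¬ IsMeagre ((↑) ⁻¹' (E ∩ V) : Set (π ⁻¹' {x}))}

theorem baire_fibre (hc : Continuous π) (x : X) : BaireSpace (π ⁻¹' {x}) := by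
  have h : IsClosed (π ⁻¹' {x}) := isClosed_singleton.preimage hc
  have : PolishSpace (π ⁻¹' {x}) := h.polishSpace
  infer_instance

theorem nm_of_open (hc : Continuous π) {E V : Set (ℕ → ℕ)} (hE : IsOpen (E ∩ V)) :
    NM π E V = π '' (E ∩ V) := by
  ext x
  constructor
  · intro hx
    by_contra hcon
    apply hx
    have : ((↑) ⁻¹' (E ∩ V) : Set (π ⁻¹' {x})) = ∅ := by
      rw [eq_empty_iff_forall_notMem]
      rintro ⟨z, hz⟩ hz'
      exact hcon ⟨z, hz', hz⟩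
    rw [this]
    exact IsMeagre.empty
  · rintro ⟨z, hz, rfl⟩
    have := baire_fibre hc (π z)
    exact not_isMeagre_of_isOpen (hE.preimage continuous_subtype_val) ⟨⟨z, rfl⟩, hz⟩

theorem nm_iUnion {B : ℕ → Set (ℕ → ℕ)} {V : Set (ℕ → ℕ)} :
    NM π (⋃ n, B n) V = ⋃ n, NM π (B n) V := by
  ext x
  simp only [NM, mem_ofPred_eq, mem_iUnion]
  rw [← not_forall, not_iff_not]
  constructor
  · intro h n
    refine h.mono (preimage_mono (inter_subset_inter_left _ (subset_iUnion _ _)))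
  · intro h
    have : ((↑) ⁻¹' ((⋃ n, B n) ∩ V) : Set (π ⁻¹' {x})) = ⋃ n, (↑) ⁻¹' (B n ∩ V) := by
      rw [iUnion_inter, preimage_iUnion]
    rw [this]
    exact isMeagre_iUnion h

theorem nm_basis (hc : Continuous π) {B V : Set (ℕ → ℕ)} (hB : MeasurableSet B)
    (hV : IsOpen V) :
    NM π B V = ⋃ W ∈ {W | W ∈ countableBasis (ℕ → ℕ) ∧ W ⊆ V}, (π '' W ∩ (NM π Bᶜ W)ᶜ) := by
  ext x
  have := baire_fibre hc x
  constructor
  · intro hx
    have hBx : MeasurableSet ((↑) ⁻¹' B : Set (π ⁻¹' {x})) := by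
      exact measurable_subtype_coe hB
    obtain ⟨U, hU, hBU⟩ := hBx.residualEq_isOpen
    obtain ⟨U', hU', rfl⟩ := isOpen_induced_iff.1 hU
    -- `U ∩ V` is nonempty in the fibre
    have hne : ∃ z : π ⁻¹' {x}, (z : ℕ → ℕ) ∈ U' ∩ V := by
      by_contra hcon
      push Not at hcon
      apply hx
      have h1 : IsMeagre (((↑) ⁻¹' B : Set (π ⁻¹' {x})) \ ((↑) ⁻¹' U')) := by
        unfold IsMeagre
        filter_upwards [hBU] with z hz hz'
        have hz2 : (z ∈ ((↑) ⁻¹' B : Set (π ⁻¹' {x}))) = (z ∈ ((↑) ⁻¹' U' : Set (π ⁻¹' {x}))) := hz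
        exact hz'.2 (hz2 ▸ hz'.1)
      refine h1.mono ?_
      rintro z ⟨hz1, hz2⟩
      exact ⟨hz1, fun hz3 => hcon z ⟨hz3, hz2⟩⟩
    obtain ⟨z, hz⟩ := hne
    obtain ⟨W, hW, hzW, hWs⟩ :=
      (isBasis_countableBasis (ℕ → ℕ)).exists_subset_of_mem_open hz (hU'.inter hV)
    refine mem_iUnion₂.2 ⟨W, ⟨hW, fun y hy => (hWs hy).2⟩, ⟨z, hzW, z.2⟩, ?_⟩
    simp only [NM, mem_compl_iff, mem_ofPred_eq, not_not]
    unfold IsMeagre
    filter_upwards [hBU] with y hy hy'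
    have hy2 : (y ∈ ((↑) ⁻¹' B : Set (π ⁻¹' {x}))) = (y ∈ ((↑) ⁻¹' U' : Set (π ⁻¹' {x}))) := hy
    have hy3 : y ∈ ((↑) ⁻¹' U' : Set (π ⁻¹' {x})) := (hWs hy'.2).1
    rw [← hy2] at hy3
    exact hy'.1 hy3
  · intro hx
    obtain ⟨W, ⟨hW, hWV⟩, ⟨z, hzW, hzx⟩, hm⟩ := mem_iUnion₂.1 hx
    simp only [NM, mem_compl_iff, mem_ofPred_eq, not_not] at hm
    intro hcon
    have hWo : IsOpen W := isOpen_of_mem_countableBasis hW
    have h1 : ¬ IsMeagre ((↑) ⁻¹' W : Set (π ⁻¹' {x})) :=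
      not_isMeagre_of_isOpen (hWo.preimage continuous_subtype_val) ⟨⟨z, hzx⟩, hzW⟩
    apply h1
    refine (hm.union hcon).mono ?_
    intro y hy
    by_cases hyB : (y : ℕ → ℕ) ∈ B
    · right; exact ⟨hyB, hWV hy⟩
    · left; exact ⟨hyB, hy⟩

theorem sig_nm (hc : Continuous π) (ho : IsOpenMap π) {ξ : Ordinal.{0}} {E : Set (ℕ → ℕ)}
    (hE : Sig ξ E) : ∀ V : Set (ℕ → ℕ), IsOpen V → Sig ξ (NM π E V) := by
  induction hE with
  | opn U hU =>
    intro V hV
    rw [nm_of_open hc (hU.inter hV)]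
    exact Sig.opn _ (ho _ (hU.inter hV))
  | iUnion ξ η B h1 h2 h3 ih =>
    intro V hV
    rw [nm_iUnion]
    have hξ : 1 ≤ ξ := (h1 0).trans (h2 0).le
    refine sig_iUnion_nat fun n => ?_
    have hBm : MeasurableSet (B n) := by
      have := (h3 n).measurableSet
      exact this.of_compl
    rw [nm_basis hc hBm hV]
    refine sig_biUnion ((countable_countableBasis (ℕ → ℕ)).mono fun W hW => hW.1) hξ ?_
    rintro W ⟨hW, -⟩
    have hWo : IsOpen W := isOpen_of_mem_countableBasis hW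
    refine Sig.inter (sig_of_isOpen (ho _ hWo) hξ) ?_
    have h5 := ih n W hWo
    have h6 : Pi0 (η n) (NM π (B n)ᶜ W)ᶜ := by
      unfold Pi0
      rw [compl_compl]
      exact h5
    exact h6.sig (h2 n)

/-- the points in whose fibre `E` is comeagre -/
def CM (π : (ℕ → ℕ) → X) (E : Set (ℕ → ℕ)) : Set X :=
  {x | IsMeagre ((↑) ⁻¹' Eᶜ : Set (π ⁻¹' {x}))}

theorem pi_cm (hc : Continuous π) (ho : IsOpenMap π) {ξ : Ordinal.{0}} {E : Set (ℕ → ℕ)}
    (hE : Pi0 ξ E) : Pi0 ξ (CM π E) := by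
  have h := sig_nm hc ho hE univ isOpen_univ
  unfold Pi0
  convert h using 1
  ext x
  simp [CM, NM]

theorem cm_nonempty (hc : Continuous π) (hs : Function.Surjective π) {x : X}
    {E : Set (ℕ → ℕ)} (h : x ∈ CM π E) : ∃ z, π z = x ∧ z ∈ E := by
  by_contra hcon
  push Not at hcon
  have := baire_fibre hc x
  obtain ⟨z, hz⟩ := hs x
  have h2 : ((↑) ⁻¹' Eᶜ : Set (π ⁻¹' {x})) = univ := by
    rw [eq_univ_iff_forall]
    rintro ⟨y, hy⟩
    exact hcon y hy
  simp only [CM, mem_ofPred_eq] at h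
  rw [h2] at h
  exact not_isMeagre_of_isOpen isOpen_univ ⟨⟨z, hz⟩, mem_univ _⟩ h

theorem cm_seq (hc : Continuous π) (ho : IsOpenMap π) {ξ l : Ordinal.{0}}
    (hl : l < ω₁) {F : Ordinal.{0} → Set (ℕ → ℕ)} (hF : Seq0 ξ l F) :
    Seq0 ξ l (fun θ => CM π (F θ)) where
  zero := by
    rw [eq_univ_iff_forall]
    intro x
    simp only [CM, mem_ofPred_eq]
    rw [hF.zero]
    simp only [compl_univ, preimage_empty]
    exact IsMeagre.empty
  anti := by
    intro θ η h1 h2 x hx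
    simp only [CM, mem_ofPred_eq] at hx ⊢
    exact hx.mono (preimage_mono (compl_subset_compl.2 (hF.anti θ η h1 h2)))
  pi := fun η hη => pi_cm hc ho (hF.pi η hη)
  lim := by
    intro η hη hlim
    ext x
    simp only [mem_iInter]
    constructor
    · intro hx θ hθ
      simp only [CM, mem_ofPred_eq] at hx ⊢
      exact hx.mono (preimage_mono (compl_subset_compl.2 (hF.anti θ η hθ.le hη)))
    · intro hx
      simp only [CM, mem_ofPred_eq] at hx ⊢
      rw [hF.lim η hη hlim]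
      have h1 : ((↑) ⁻¹' (⋂ θ, ⋂ (_ : θ < η), F θ)ᶜ : Set (π ⁻¹' {x}))
          = ⋃ θ : Set.Iio η, (↑) ⁻¹' (F θ)ᶜ := by
        ext z
        simp only [mem_preimage, mem_compl_iff, mem_iInter, not_forall, mem_iUnion]
        constructor
        · rintro ⟨θ, h1, h2⟩
          exact ⟨⟨θ, h1⟩, h2⟩
        · rintro ⟨⟨θ, h1⟩, h2⟩
          exact ⟨θ, h1, h2⟩
      rw [h1]
      have : Countable (Set.Iio η) := (countable_Iio (hη.trans hl)).to_subtype
      exact isMeagre_iUnion fun θ => hx θ θ.2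

/-- a point of the fibre witnessing the exit -/
theorem witness (hc : Continuous π) (hs : Function.Surjective π) {x : X}
    {E E' : Set (ℕ → ℕ)} (h : x ∈ CM π E) (h' : x ∉ CM π E') :
    ∃ z, π z = x ∧ z ∈ E ∧ z ∉ E' := by
  by_contra hcon
  push Not at hcon
  apply h'
  simp only [CM, mem_ofPred_eq] at h ⊢
  refine h.mono ?_
  rintro ⟨z, hz⟩ hz' hz''
  exact hz' (hcon z hz hz'')

end

theorem main_V : Stm_V := by
  intro X _ _ π hc ho hs ξ hξ l hl hlim A B ⟨F, hF, hA, hB⟩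
  have hS := cm_seq hc ho hl hF
  refine ⟨_, hS, ?_, ?_⟩
  · intro x hx
    have hesc : ∃ θ < l, x ∉ CM π (F θ) := by
      by_contra hcon
      push Not at hcon
      have h1 : x ∈ CM π (⋂ θ : Set.Iio l, F θ) := by
        simp only [CM, mem_ofPred_eq]
        have : Countable (Set.Iio l) := (countable_Iio hl).to_subtype
        rw [compl_iInter, preimage_iUnion]
        exact isMeagre_iUnion fun θ => hcon θ θ.2
      obtain ⟨z, hz, hz'⟩ := cm_nonempty hc hs h1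
      have h2 : z ∈ DiffSet l F := hA (by rw [mem_preimage, hz]; exact hx)
      obtain ⟨η, a1, -, -, a2⟩ := h2
      exact a2 (mem_iInter.1 hz' ⟨η + 1, limit_add_one hlim a1⟩)
    obtain ⟨η, a1, a2, a3⟩ := hS.exit hesc
    rw [hS.mem_diff_iff hlim a1 a2 a3]
    obtain ⟨z, hz, b1, b2⟩ := witness hc hs a2 a3
    have h2 : z ∈ DiffSet l F := hA (by rw [mem_preimage, hz]; exact hx)
    exact (hF.mem_diff_iff hlim a1 b1 b2).1 h2
  · rw [Set.disjoint_left]
    rintro x hx ⟨η, a1, a2, a3, a4⟩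
    obtain ⟨z, hz, b1, b2⟩ := witness hc hs a3 a4
    exact Set.disjoint_left.1 hB (show z ∈ π ⁻¹' B by rw [mem_preimage, hz]; exact hx)
      ⟨η, a1, a2, b1, b2⟩

end Pool.Agent.R591.BR.V
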